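import Pool.Agent.Q106.QR.Win
import Pool.Agent.Q106.UR.Exi

/-!
# Coefficients with prescribed numbers of tuples above the critical size
-/

set_option autoImplicit false

namespace Pool.Agent.Q106.QR

open Finset MeasureTheory ProbabilityTheory Filter Pool.Agent.Q120.GM Pool.Agent.Q106.UR
open scoped Topology

variable {Ω : Type*} [MeasurableSpace Ω] {μ : Measure Ω} [IsProbabilityMeasure μ] {A : Ω → Set ℕ}

/-- The set of the coefficients. -/
def Rj {k : ℕ} (Q x W : ℕ) (a : Fin k → ℕ) (j : Fin k → ℕ) : Finset ℕ :=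
  univ.image (fun i : Fin k => shR Q x W a i (j i))

theorem mem_Rj {k Q x W : ℕ} {a j : Fin k → ℕ} {b : ℕ} : b ∈ Rj Q x W a j ↔ ∃ i, b = shR Q x W a i (j i) := by
  unfold Rj
  rw [mem_image]
  constructor
  · rintro ⟨i, _, h⟩
    exact ⟨i, h.symm⟩
  · rintro ⟨i, h⟩
    exact ⟨i, mem_univ i, h.symm⟩

theorem tq_Rj {k Q x W : ℕ} {a j : Fin k → ℕ} (n : ℕ) : tq (Rj Q x W a j) n = Uv (vR Q x W a) j n := by
  ext b
  rw [mem_tq, mem_Uv]
  constructor
  · rintro ⟨r, hr, e⟩
    obtain ⟨i, rfl⟩ := mem_Rj.1 hr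
    exact ⟨i, e⟩
  · rintro ⟨i, e⟩
    exact ⟨_, mem_Rj.2 ⟨i, rfl⟩, e⟩

theorem Rj_card {k Q x W : ℕ} {a j : Fin k → ℕ} (hx : 1 ≤ x) (ha : ∀ i, a i < Q) (hj : j ∈ GG k W) :
    (Rj Q x W a j).card = k := by
  unfold Rj
  rw [card_image_of_injective]
  · simp
  · intro i i' h
    refine (vR_inj (x := x) (W := W) (a := a) hx ha (le_refl x) (by omega) (le_refl x) (by omega) (mem_GG.1 hj i)
      (mem_GG.1 hj i') ?_).1
    unfold vR
    have h1 : shR Q x W a i (j i) = shR Q x W a i' (j i') := h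
    rw [h1]

theorem goodR_iff {k Q x W : ℕ} {a j : Fin k → ℕ} {R₀ : Finset ℕ} (ha : ∀ i, ∃ r ∈ R₀, a i = r % Q)
    (ha' : ∀ r ∈ R₀, ∃ i, a i = r % Q) (n : ℕ) : GoodR Q (Rj Q x W a j) n ↔ GoodR Q R₀ n := by
  have key : ∀ (i : Fin k) (r : ℕ), a i = r % Q → ((n * shR Q x W a i (j i) + 1).Coprime Q ↔ (n * r + 1).Coprime Q) := by
    intro i r hr
    have h1 : n * shR Q x W a i (j i) + 1 = (n * (r % Q) + 1) + Q * (n * (4 * x * W * 4 ^ i.1 + j i)) := by
      unfold shR
      rw [hr]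
      ring
    have h2 : n * r + 1 = (n * (r % Q) + 1) + Q * (n * (r / Q)) := by
      have h3 := Nat.mod_add_div r Q
      calc n * r + 1 = n * (r % Q + Q * (r / Q)) + 1 := by rw [h3]
        _ = _ := by ring
    rw [h1, h2, Nat.coprime_add_mul_left_left, Nat.coprime_add_mul_left_left]
  constructor
  · intro h b hb
    obtain ⟨i, hi⟩ := ha' b hb
    exact (key i b hi).1 (h _ (mem_Rj.2 ⟨i, rfl⟩))
  · intro h b hb
    obtain ⟨i, rfl⟩ := mem_Rj.1 hb
    obtain ⟨r, hr, hi⟩ := ha i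
    exact (key i r hi).2 (h _ hr)

omit [MeasurableSpace Ω] in
theorem NR_eq {k Q x W : ℕ} {a j : Fin k → ℕ} {R₀ : Finset ℕ} (ha : ∀ i, ∃ r ∈ R₀, a i = r % Q)
    (ha' : ∀ r ∈ R₀, ∃ i, a i = r % Q) {ω : Ω} (hω : ∀ n ∈ A ω, n.Coprime Q) :
    NR A (Rj Q x W a j) x ω = nm A ((Ico x (2 * x)).filter (GoodR Q R₀)) (Uv (vR Q x W a) j) ω := by
  unfold NR
  rw [nm_card, nm_card]
  congr 2
  ext n
  rw [mem_oc, mem_oc, tq_Rj, mem_filter]
  constructor
  · rintro ⟨h1, h2⟩
    refine ⟨⟨h1, (goodR_iff (x := x) (W := W) (j := j) ha ha' n).1 ?_⟩, h2⟩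
    intro r hr
    refine hω _ (h2 _ ?_)
    rw [← tq_Rj]
    exact mem_tq.2 ⟨r, hr, rfl⟩
  · rintro ⟨⟨h1, _⟩, h2⟩
    exact ⟨h1, h2⟩

/-- **Coefficients with prescribed deviations.** -/
theorem exists_devR {Q k : ℕ} (hA : IsModel μ (level Q) A) (hQ : 1 ≤ Q) (hk : 1 ≤ k) {R₀ : Finset ℕ}
    (hR₀ : R₀.card = k) (hs : 0 < sgR Q R₀) {c u ε₂ : ℝ} (hc : 0 < c) (hu : 0 ≤ u)
    (hcr : sgR Q R₀ * II u < k * c ^ (k + 1)) (hε₂ : 0 < ε₂) :
    ∀ᵐ ω ∂μ, ∀ᶠ x : ℕ in atTop, ∃ R : Finset ℕ, R.card = k ∧ 0 ∉ R ∧ (∀ r ∈ R, (r : ℝ) ≤ Real.exp (c * YR k x)) ∧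
      (∀ n, GoodR Q R n ↔ GoodR Q R₀ n) ∧ sgR Q R = sgR Q R₀ ∧
      NR A R x ω ≤ u * MR Q R x ∧ (u - ε₂) * MR Q R x ≤ NR A R x ω := by
  classical
  have hq := qq_pos hQ
  have hQ0 : (0 : ℝ) < Q := by exact_mod_cast hQ
  have hk0 : (0 : ℝ) < k := by exact_mod_cast hk
  obtain ⟨s, hsd⟩ : ∃ s, s = sgR Q R₀ := ⟨_, rfl⟩
  rw [← hsd] at hs hcr
  have hI := II_nonneg hu
  -- the parameters
  obtain ⟨ε, hε⟩ : ∃ ε, ε = min ((k * c ^ (k + 1) - s * II u) / (2 * s)) (c ^ (k + 1) / (16 * s)) := ⟨_, rfl⟩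
  have hε0 : 0 < ε := by rw [hε]; exact lt_min (by have : 0 < k * c ^ (k + 1) - s * II u := by linarith
                                                   positivity) (by positivity)
  have hε1 : s * (II u + ε) < k * c ^ (k + 1) := by
    have h1 : ε ≤ (k * c ^ (k + 1) - s * II u) / (2 * s) := by rw [hε]; exact min_le_left _ _
    rw [le_div_iff₀ (by positivity)] at h1
    linarith
  have hε3 : 16 * (s * ε) ≤ c ^ (k + 1) := by
    have h1 : ε ≤ c ^ (k + 1) / (16 * s) := by rw [hε]; exact min_le_right _ _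
    rw [le_div_iff₀ (by positivity)] at h1
    linarith
  obtain ⟨η, hη0, hη1, Λ, hΛ, hasy⟩ := asy hu hε0
  obtain ⟨η', hη'⟩ : ∃ η', η' = min (η / 3) (ε₂ / (2 * (u + 1))) := ⟨_, rfl⟩
  have hη'0 : 0 < η' := by rw [hη']; exact lt_min (by positivity) (by positivity)
  have hη'1 : η' ≤ η / 3 := by rw [hη']; exact min_le_left _ _
  have hη'2 : u * η' ≤ ε₂ / 2 := by
    have h1 : η' ≤ ε₂ / (2 * (u + 1)) := by rw [hη']; exact min_le_right _ _
    rw [le_div_iff₀ (by positivity)] at h1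
    nlinarith
  obtain ⟨c', hc'1, hc'2, hc'3, hc'4⟩ := exists_near (k := k) (b := s * (II u + ε) / (k * c ^ k)) hc (by
    rw [div_lt_iff₀ (by positivity)]
    calc s * (II u + ε) < k * c ^ (k + 1) := hε1
      _ = c * (k * c ^ k) := by ring) hη'0
  have hc'0 : 0 < c' := by linarith
  obtain ⟨δ₁, hδ₁⟩ : ∃ δ₁, δ₁ = k * c' - s * (II u + ε) / c ^ k := ⟨_, rfl⟩
  have hδ₁0 : 0 < δ₁ := by
    have h1 : s * (II u + ε) / c ^ k < k * c' := by
      rw [div_lt_iff₀ (by positivity)] at hc'1 ⊢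
      calc s * (II u + ε) < c' * (k * c ^ k) := hc'1
        _ = k * c' * c ^ k := by ring
    rw [hδ₁]
    linarith
  obtain ⟨δ₂, hδ₂⟩ : ∃ δ₂, δ₂ = c' - 4 * (s * ε) / c ^ k := ⟨_, rfl⟩
  have hδ₂0 : 0 < δ₂ := by
    have h1 : 4 * (s * ε) / c ^ k ≤ c / 4 := by
      rw [div_le_iff₀ (by positivity)]
      have : c / 4 * c ^ k = c ^ (k + 1) / 4 := by ring
      rw [this]
      linarith
    rw [hδ₂]
    linarith
  -- the enumeration
  obtain ⟨a, ha⟩ : ∃ a : Fin k → ℕ, a = fun i => ((R₀.equivFinOfCardEq hR₀).symm i : ℕ) % Q := ⟨_, rfl⟩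
  have haR : ∀ i, ∃ r ∈ R₀, a i = r % Q := by
    intro i
    rw [ha]
    exact ⟨_, ((R₀.equivFinOfCardEq hR₀).symm i).2, rfl⟩
  have haR' : ∀ r ∈ R₀, ∃ i, a i = r % Q := by
    intro h hh
    refine ⟨R₀.equivFinOfCardEq hR₀ ⟨h, hh⟩, ?_⟩
    rw [ha]
    simp
  have haQ : ∀ i, a i < Q := by
    intro i
    rw [ha]
    exact Nat.mod_lt _ hQ
  obtain ⟨W, hW⟩ : ∃ W : ℕ → ℕ, W = fun x => ⌈Real.exp (c' * YR k x)⌉₊ := ⟨_, rfl⟩
  obtain ⟨l, hl⟩ : ∃ l : ℕ → ℝ, l = fun x => s * YR k x / c ^ k := ⟨_, rfl⟩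
  obtain ⟨m, hm⟩ : ∃ m : ℕ → ℕ, m = fun x => ⌊u * l x⌋₊ := ⟨_, rfl⟩
  obtain ⟨T, hT⟩ : ∃ T : ℕ → Finset ℕ, T = fun x => (Ico x (2 * x)).filter (GoodR Q R₀) := ⟨_, rfl⟩
  obtain ⟨C₁, hC₁⟩ : ∃ C₁ : ℝ, C₁ = 32 * Q * 4 ^ k := ⟨_, rfl⟩
  have hC₁0 : 0 < C₁ := by rw [hC₁]; positivity
  have hcc : 0 < c - c' := by linarith
  -- facts for large x
  have f1 : ∀ᶠ x : ℕ in atTop, (x : ℝ) ^ 2 * C₁ ≤ Real.exp ((c - c') * YR k x) := by
    have g1 := YR_log k (3 / (c - c'))
    have g2 := (tendsto_natCast_atTop_atTop (R := ℝ)).eventually_ge_atTop C₁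
    filter_upwards [g1, g2, eventually_ge_atTop 1] with x h1 h2 h3
    have hx1 : (1 : ℝ) ≤ x := by exact_mod_cast h3
    have h4 : 3 * Real.log x ≤ (c - c') * YR k x := by
      have h5 := mul_le_mul_of_nonneg_left h1 hcc.le
      have h6 : (c - c') * (3 / (c - c') * Real.log x) = 3 * Real.log x := by field_simp
      linarith
    calc (x : ℝ) ^ 2 * C₁ ≤ x ^ 2 * x := mul_le_mul_of_nonneg_left h2 (by positivity)
      _ = x ^ 3 := by ring
      _ = Real.exp (3 * Real.log x) := by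
          have := Real.exp_nat_mul (Real.log x) 3
          push_cast at this
          rw [this, Real.exp_log (by linarith)]
      _ ≤ _ := Real.exp_le_exp.2 h4
  have f2 : ∀ᶠ x : ℕ in atTop, qq Q * (2 * (u + 1)) / (η * c') ≤ YR k x := (YR_tendsto k).eventually_ge_atTop _
  have f3 : ∀ᶠ x : ℕ in atTop, (Λ + 2 / ε₂) * (c ^ k / s) ≤ YR k x := (YR_tendsto k).eventually_ge_atTop _
  have f4 := evR_small k (C := 1) one_pos hδ₁0
  have f5 := evR_small k (C := (k : ℝ)) hk0 hδ₂0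
  have f6 : ∀ᶠ x : ℕ in atTop, (Q : ℝ) * 3 / η ≤ x := (tendsto_natCast_atTop_atTop (R := ℝ)).eventually_ge_atTop _
  -- the probability of failure
  obtain ⟨B, hB⟩ : ∃ B : ℕ → Set Ω, B = fun x => {ω | ∀ j ∈ GG k (W x), nm A (T x) (Uv (vR Q x (W x) a) j) ω ≠ m x} :=
    ⟨_, rfl⟩
  -- the bounds for the coefficients
  have fsh : ∀ᶠ x : ℕ in atTop, 1 ≤ x ∧ 1 ≤ Real.log x ∧ 0 < YR k x ∧ ∀ i : Fin k, ∀ j < W x,
      Real.exp (c' * YR k x) ≤ shR Q x (W x) a i j ∧ 2 * (x : ℝ) * shR Q x (W x) a i j + 1 ≤ Real.exp (c * YR k x) := by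
    filter_upwards [f1, log_tendsto.eventually_ge_atTop 1, YR_log k 1, eventually_ge_atTop 1] with x h1 h2 h3 h4
    refine ⟨h4, h2, by linarith, ?_⟩
    intro i j hj
    have hx0 : (0 : ℝ) < x := by exact_mod_cast h4
    have hYn := YR_nonneg k x
    have hWl : Real.exp (c' * YR k x) ≤ W x := by rw [hW]; exact Nat.le_ceil _
    have hWu : (W x : ℝ) ≤ 2 * Real.exp (c' * YR k x) := by
      have h5 : (W x : ℝ) < Real.exp (c' * YR k x) + 1 := by rw [hW]; exact Nat.ceil_lt_add_one (Real.exp_pos _).le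
      have h6 : 1 ≤ Real.exp (c' * YR k x) := Real.one_le_exp (by positivity)
      linarith
    constructor
    · have h5 : W x ≤ shR Q x (W x) a i j := by
        refine le_trans ?_ (shR_ge i j)
        have h6 : 1 ≤ Q * (4 * x * 4 ^ i.1) := Nat.mul_pos hQ (Nat.mul_pos (by omega) (by positivity))
        calc W x = 1 * W x := (one_mul _).symm
          _ ≤ (Q * (4 * x * 4 ^ i.1)) * W x := Nat.mul_le_mul_right _ h6
          _ = _ := by ring
      have h5' : (W x : ℝ) ≤ shR Q x (W x) a i j := by exact_mod_cast h5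
      linarith
    · have h5 : 2 * x * shR Q x (W x) a i j + 1 ≤ 16 * Q * 4 ^ k * x ^ 2 * W x := by
        have h6 := shR_lt (x := x) haQ (i := i) hj
        have h7 : 4 ^ i.1 ≤ 4 ^ k := Nat.pow_le_pow_right (by norm_num) i.2.le
        have h8 : W x ≤ 4 * x * W x * 4 ^ k := by
          have h9 : 1 ≤ 4 * x * 4 ^ k := Nat.mul_pos (by omega) (by positivity)
          calc W x = 1 * W x := (one_mul _).symm
            _ ≤ (4 * x * 4 ^ k) * W x := Nat.mul_le_mul_right _ h9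
            _ = 4 * x * W x * 4 ^ k := by ring
        have h9 : 4 * x * W x * 4 ^ i.1 + W x ≤ 2 * (4 * x * W x * 4 ^ k) := by
          have := Nat.mul_le_mul_left (4 * x * W x) h7
          omega
        have h10 : shR Q x (W x) a i j + 1 ≤ Q * (2 * (4 * x * W x * 4 ^ k)) :=
          (Nat.succ_le_of_lt h6).trans (Nat.mul_le_mul_left _ h9)
        calc 2 * x * shR Q x (W x) a i j + 1 ≤ 2 * x * (shR Q x (W x) a i j + 1) := by
              rw [Nat.mul_add]
              omega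
          _ ≤ 2 * x * (Q * (2 * (4 * x * W x * 4 ^ k))) := Nat.mul_le_mul_left _ h10
          _ = _ := by ring
      have h5' : 2 * (x : ℝ) * shR Q x (W x) a i j + 1 ≤ 16 * Q * 4 ^ k * x ^ 2 * W x := by exact_mod_cast h5
      refine h5'.trans ?_
      calc (16 : ℝ) * Q * 4 ^ k * x ^ 2 * W x ≤ 16 * Q * 4 ^ k * x ^ 2 * (2 * Real.exp (c' * YR k x)) :=
            mul_le_mul_of_nonneg_left hWu (by positivity)
        _ = (x : ℝ) ^ 2 * C₁ * Real.exp (c' * YR k x) := by rw [hC₁]; ring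
        _ ≤ Real.exp ((c - c') * YR k x) * Real.exp (c' * YR k x) := mul_le_mul_of_nonneg_right h1 (Real.exp_pos _).le
        _ = Real.exp (c * YR k x) := by rw [← Real.exp_add]; congr 1; ring
  have hbound : ∀ᶠ x : ℕ in atTop, μ.real (B x) ≤ 2 * (1 / (x : ℝ) ^ 2) := by
    filter_upwards [fsh, f2, f3, f4, f5, f6] with x hsh h2 h3 h4 h5 h6
    obtain ⟨hx1, hlx, hY0, hsh⟩ := hsh
    have hx0 : (0 : ℝ) < x := by exact_mod_cast hx1
    have hlx0 : 0 < Real.log x := by linarith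
    obtain ⟨Y, hY⟩ : ∃ Y, Y = YR k x := ⟨_, rfl⟩
    rw [← hY] at h2 h3 h4 h5 hY0 hsh
    obtain ⟨q, hqd⟩ : ∃ q, q = qq Q / (c * Y) := ⟨_, rfl⟩
    obtain ⟨q', hq'd⟩ : ∃ q', q' = qq Q / (c' * Y) := ⟨_, rfl⟩
    have hq0 : 0 < q := by rw [hqd]; positivity
    have hq'0 : 0 < q' := by rw [hq'd]; positivity
    have hqq' : q ≤ q' := by
      rw [hqd, hq'd]
      exact div_le_div_of_nonneg_left hq.le (by positivity) (mul_le_mul_of_nonneg_right hc'3.le hY0.le)
    have hθ : q' * (2 * (u + 1)) ≤ η := by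
      rw [div_le_iff₀ (by positivity)] at h2
      rw [hq'd, div_mul_eq_mul_div, div_le_iff₀ (by positivity)]
      linarith
    have hq'η : q' ≤ η / 2 := by nlinarith only [hθ, mul_nonneg hu hq'0.le]
    have huq' : u * q' ≤ η / 2 := by nlinarith only [hθ, hq'0]
    have hq'1 : q' < 1 := by linarith
    have hlx' : l x = s * Y / c ^ k := by rw [hl, hY]
    have hlΛ : Λ + 2 / ε₂ ≤ l x := by
      rw [hlx', le_div_iff₀ (by positivity)]
      have h7 := mul_le_mul_of_nonneg_right h3 hs.le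
      have h8 : (Λ + 2 / ε₂) * (c ^ k / s) * s = (Λ + 2 / ε₂) * c ^ k := by field_simp
      linarith
    have hl0 : 0 < l x := by
      have : 0 < Λ + 2 / ε₂ := by positivity
      linarith
    have hlw : l x = x * ((ccR Q R₀ : ℝ) / Q) * q ^ k := by
      have hpw : Y ^ (k + 1) = (x : ℝ) := by rw [hY]; exact YR_pow k x
      have hss : s = (ccR Q R₀ : ℝ) / Q * qq Q ^ k := by
        rw [hsd, sgR_eq, hR₀]
      rw [hlx', hss, hqd, ← hpw, div_pow, mul_pow, pow_succ]
      field_simp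
    have hcnt := countR_real hQ R₀ x x
    rw [show x + x = 2 * x by ring] at hcnt
    have hTe : T x = (Ico x (2 * x)).filter (GoodR Q R₀) := by rw [hT]
    rw [← hTe] at hcnt
    have hccn : 0 ≤ (ccR Q R₀ : ℝ) / Q := by positivity
    have hQx : (Q : ℝ) ≤ η / 3 * x := by
      rw [div_le_iff₀ hη0] at h6
      linarith
    have ht1 : (1 - η / 3) * (x * ((ccR Q R₀ : ℝ) / Q)) ≤ (T x).card := by
      refine le_trans ?_ hcnt.1
      rw [← mul_assoc]
      refine mul_le_mul_of_nonneg_right ?_ hccn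
      linarith
    have ht2 : ((T x).card : ℝ) ≤ (1 + η / 3) * (x * ((ccR Q R₀ : ℝ) / Q)) := by
      refine hcnt.2.trans ?_
      rw [← mul_assoc]
      refine mul_le_mul_of_nonneg_right ?_ hccn
      linarith
    obtain ⟨β, hβ⟩ : ∃ β, β = 1 / (x : ℝ) ^ 2 + 1 / (x : ℝ) ^ 2 := ⟨_, rfl⟩
    have hW1 : 1 ≤ W x := by
      have h7 : Real.exp (c' * Y) ≤ W x := by rw [hW, hY]; exact Nat.le_ceil _
      have h8 : (0 : ℝ) < W x := lt_of_lt_of_le (Real.exp_pos _) h7
      have h9 : 0 < W x := by exact_mod_cast h8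
      exact h9
    have hWl : Real.exp (c' * Y) ≤ W x := by rw [hW, hY]; exact Nat.le_ceil _
    have hTr : ∀ n ∈ T x, x ≤ n ∧ n < 2 * x ∧ GoodR Q R₀ n := by
      intro n hn
      rw [hTe, mem_filter, mem_Ico] at hn
      exact ⟨hn.1.1, hn.1.2, hn.2⟩
    have hinj : InjV (vR Q x (W x) a) (T x) (W x) := by
      intro n hn n' hn' i i' j j' hj hj' he
      exact vR_inj hx1 haQ (hTr n hn).1 (hTr n hn).2.1 (hTr n' hn').1 (hTr n' hn').2.1 hj hj' he
    have hwP : (1 - η) * l x ≤ (T x).card * q ^ k := by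
      have h7 := mul_le_mul_of_nonneg_right ht1 (show 0 ≤ q ^ k by positivity)
      rw [mul_assoc, ← hlw] at h7
      have h8 : η / 3 * l x ≤ η * l x := mul_le_mul_of_nonneg_right (by linarith) hl0.le
      linarith
    have hwPu : (T x).card * q ^ k ≤ (1 + η / 3) * l x := by
      have h7 := mul_le_mul_of_nonneg_right ht2 (show 0 ≤ q ^ k by positivity)
      rw [mul_assoc, ← hlw] at h7
      exact h7
    have hwP' : (T x).card * q' ^ k ≤ (1 + η) * l x := by
      have h7 : q' ^ k = q ^ k * (c / c') ^ k := by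
        rw [← mul_pow, hqd, hq'd]
        congr 1
        field_simp
      rw [h7, ← mul_assoc]
      have h8 : (T x).card * q ^ k * (c / c') ^ k ≤ (1 + η / 3) * l x * (1 + η / 3) := by
        refine mul_le_mul hwPu (hc'4.trans (by linarith)) (by positivity) (by positivity)
      refine h8.trans ?_
      have h9 : (1 + η / 3) * (1 + η / 3) ≤ 1 + η := by nlinarith only [hη0, hη1]
      nlinarith only [mul_le_mul_of_nonneg_right h9 hl0.le]
    have hPP : q ^ k ≤ q' ^ k := pow_le_pow_left₀ hq0.le hqq' k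
    have hP'η : q' ^ k ≤ η := by
      have h7 : q' ^ k ≤ q' := pow_le_of_le_one hq'0.le hq'1.le (by omega)
      linarith
    have hwr : (T x).card * q' ^ (k + 1) ≤ η * l x := by
      rw [pow_succ, ← mul_assoc]
      have h8 : (T x).card * q' ^ k * q' ≤ (1 + η) * l x * (η / 2) := mul_le_mul hwP' hq'η hq'0.le (by positivity)
      refine h8.trans ?_
      nlinarith only [mul_nonneg (mul_nonneg hη0.le hl0.le) (show 0 ≤ 1 - η by linarith)]
    have hmu : (m x : ℝ) ≤ u * l x := by rw [hm]; exact Nat.floor_le (by positivity)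
    have hmw : (m x : ℝ) ≤ η * (T x).card := by
      have hqk : q ^ k ≤ q' := by
        have h7 : q ^ k ≤ q := pow_le_of_le_one hq0.le (by linarith) (by omega)
        linarith
      have h7 : u * l x * q ^ k ≤ η * (T x).card * q ^ k := by
        calc u * l x * q ^ k ≤ u * l x * q' := mul_le_mul_of_nonneg_left hqk (by positivity)
          _ = (u * q') * l x := by ring
          _ ≤ (η / 2) * l x := mul_le_mul_of_nonneg_right huq' hl0.le
          _ ≤ η * ((1 - η) * l x) := by nlinarith only [mul_nonneg (mul_nonneg hη0.le hl0.le) (show 0 ≤ 1 / 2 - η by linarith)]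
          _ ≤ η * ((T x).card * q ^ k) := mul_le_mul_of_nonneg_left hwP hη0.le
          _ = η * (T x).card * q ^ k := by ring
      exact hmu.trans (le_of_mul_le_mul_right h7 (by positivity))
    obtain ⟨hlo, z, g, hz, hzm, hg1, hg2, hbb⟩ := hasy (T x).card (m x) (l x) (q ^ k) (q' ^ k) (q' ^ (k + 1))
      (by have : 0 < 2 / ε₂ := by positivity
          linarith) (by rw [hm]) hwP hwP' (by positivity) hPP hP'η (by positivity) hwr hmw
    have hmt : m x ≤ (T x).card := by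
      have h7 : (m x : ℝ) ≤ (T x).card := by
        have : (0 : ℝ) ≤ (T x).card := Nat.cast_nonneg _
        nlinarith only [hmw, hη1, this]
      exact_mod_cast h7
    have hwin := winV (μ := μ) (A := A) (p := level Q) (v := vR Q x (W x) a) (t := T x) (W := W x) hA hinj hW1
      (q := q) (q' := q') (z := z) (g := g) hq0 hq'1 (by
        intro n hn i j hj
        obtain ⟨hn1, hn2, hng⟩ := hTr n hn
        obtain ⟨hs1, hs2⟩ := hsh i j hj
        have hnx : (n : ℝ) ≤ 2 * x := by exact_mod_cast hn2.le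
        have hnx1 : (1 : ℝ) ≤ n := by exact_mod_cast hx1.trans hn1
        have hs0 : (0 : ℝ) ≤ shR Q x (W x) a i j := Nat.cast_nonneg _
        have hlow : Real.exp (c' * Y) ≤ ((vR Q x (W x) a i j n : ℕ) : ℝ) := by
          unfold vR
          push_cast
          nlinarith only [hs1, mul_nonneg (sub_nonneg.2 hnx1) hs0]
        have hupp : ((vR Q x (W x) a i j n : ℕ) : ℝ) ≤ Real.exp (c * Y) := by
          unfold vR
          push_cast
          have := mul_le_mul_of_nonneg_right hnx hs0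
          linarith
        have hco : (vR Q x (W x) a i j n).Coprime Q := by
          obtain ⟨r, hr, hi⟩ := haR i
          have h7 : vR Q x (W x) a i j n = (n * (r % Q) + 1) + Q * (n * (4 * x * W x * 4 ^ i.1 + j)) := by
            unfold vR shR
            rw [hi]
            ring
          have h8 : n * r + 1 = (n * (r % Q) + 1) + Q * (n * (r / Q)) := by
            have h3 := Nat.mod_add_div r Q
            calc n * r + 1 = n * (r % Q + Q * (r / Q)) + 1 := by rw [h3]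
              _ = _ := by ring
          have h9 := hng r hr
          rw [h8, Nat.coprime_add_mul_left_left] at h9
          rw [h7, Nat.coprime_add_mul_left_left]
          exact h9
        have hlc' : Real.log (Real.exp (c' * Y)) = c' * Y := Real.log_exp _
        have hlc : Real.log (Real.exp (c * Y)) = c * Y := Real.log_exp _
        have hc'Y : 0 < c' * Y := by positivity
        have hqc : qq Q ≤ c' * Y := by
          have h7 : q' ≤ 1 := hq'1.le
          rw [hq'd, div_le_one hc'Y] at h7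
          exact h7
        constructor
        · have h7 := le_level (Q := Q) (m := vR Q x (W x) a i j n) (x := Real.exp (c' * Y)) (y := Real.exp (c * Y))
            (by rw [hlc']; exact hqc) (by rw [hlc']; exact hc'Y) (Real.exp_pos _) hlow hupp hco
          rw [hlc] at h7
          rw [hqd]
          exact h7
        · have h7 := level_le (Q := Q) (m := vR Q x (W x) a i j n) (x := Real.exp (c' * Y))
            (by rw [hlc']; exact hc'Y) (Real.exp_pos _) hlow
          rw [hlc'] at h7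
          rw [hq'd]
          exact h7) hk hz hzm hmt (by linarith) (by linarith) hq'0.le rfl rfl
    rw [hB]
    refine hwin.trans ?_
    obtain ⟨lo, hlod⟩ : ∃ lo, lo = ((T x).card.choose (m x) : ℝ) * (q ^ k) ^ (m x) * (1 - q' ^ k) ^ (T x).card := ⟨_, rfl⟩
    obtain ⟨b, hbd⟩ : ∃ b, b = Real.exp ((T x).card * g) / z ^ (2 * m x) := ⟨_, rfl⟩
    rw [← hlod] at hlo ⊢
    rw [← hbd] at hbb ⊢
    have hlo0 : 0 < lo := lt_of_lt_of_le (Real.exp_pos _) hlo
    have hW0 : (0 : ℝ) < W x := by exact_mod_cast hW1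
    have htwo : 2 * (1 / (x : ℝ) ^ 2) = 1 / (x : ℝ) ^ 2 + 1 / (x : ℝ) ^ 2 := by ring
    rw [htwo]
    refine add_le_add ?_ ?_
    · refine le_trans ?_ h4
      rw [one_mul]
      have h7 : Real.exp (k * (c' * Y)) * Real.exp (-(l x * (II u + ε))) ≤ (W x : ℝ) ^ k * lo := by
        refine mul_le_mul ?_ hlo (Real.exp_pos _).le (by positivity)
        rw [Real.exp_nat_mul]
        exact pow_le_pow_left₀ (Real.exp_pos _).le hWl k
      rw [← Real.exp_add] at h7
      have h8 := one_div_le_one_div_of_le (Real.exp_pos _) h7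
      refine h8.trans (le_of_eq ?_)
      rw [one_div, ← Real.exp_neg]
      congr 1
      rw [hδ₁, hlx']
      ring
    · refine le_trans ?_ h5
      have h7 : k * (W x : ℝ) ^ (2 * k - 1) * b / ((W x : ℝ) ^ k * lo) ^ 2 = k * (b / lo ^ 2) * (W x : ℝ)⁻¹ := by
        have h8 : (W x : ℝ) ^ (2 * k - 1) * W x = ((W x : ℝ) ^ k) ^ 2 := by
          rw [← pow_mul, ← pow_succ]
          congr 1
          omega
        have h9 : (W x : ℝ) ^ (2 * k - 1) = ((W x : ℝ) ^ k) ^ 2 * (W x : ℝ)⁻¹ := by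
          rw [← h8]
          field_simp
        rw [h9, mul_pow]
        have h10 : ((W x : ℝ) ^ k) ^ 2 ≠ 0 := by positivity
        field_simp
      rw [h7]
      have h8 : b / lo ^ 2 ≤ Real.exp (4 * (l x * ε)) := by
        rw [div_le_iff₀ (by positivity)]
        have h9 : Real.exp (-(l x * (II u + ε))) ^ 2 ≤ lo ^ 2 := pow_le_pow_left₀ (Real.exp_pos _).le hlo 2
        have h10 : Real.exp (4 * (l x * ε)) * Real.exp (-(l x * (II u + ε))) ^ 2 ≤ Real.exp (4 * (l x * ε)) * lo ^ 2 :=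
          mul_le_mul_of_nonneg_left h9 (Real.exp_pos _).le
        refine le_trans ?_ h10
        refine hbb.trans (le_of_eq ?_)
        rw [← Real.exp_nat_mul, ← Real.exp_add]
        congr 1
        push_cast
        ring
      have h9 : (W x : ℝ)⁻¹ ≤ Real.exp (-(c' * Y)) := by
        rw [Real.exp_neg]
        exact inv_anti₀ (Real.exp_pos _) hWl
      have h10 : k * (b / lo ^ 2) * (W x : ℝ)⁻¹ ≤ k * Real.exp (4 * (l x * ε)) * Real.exp (-(c' * Y)) := by
        refine mul_le_mul (mul_le_mul_of_nonneg_left h8 hk0.le) h9 (by positivity) (by positivity)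
      refine h10.trans (le_of_eq ?_)
      rw [mul_assoc, ← Real.exp_add]
      congr 2
      rw [hδ₂, hlx']
      ring
  filter_upwards [bc (summable_sq.mul_left 2) hbound, ae_coprime hA] with ω hω hω2
  filter_upwards [hω, fsh, f3] with x hx hsh h3
  obtain ⟨hx1, hlx, hY0, hsh⟩ := hsh
  have hex : ∃ j ∈ GG k (W x), NR A (Rj Q x (W x) a j) x ω = m x := by
    by_contra hcon
    push Not at hcon
    apply hx
    rw [hB]
    intro j hj
    have h7 := hcon j hj
    rw [NR_eq haR haR' hω2] at h7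
    rw [hT]
    exact h7
  obtain ⟨j, hj, hNN⟩ := hex
  have hx0 : (0 : ℝ) < x := by exact_mod_cast hx1
  have hx1' : (1 : ℝ) ≤ x := by exact_mod_cast hx1
  have hlx0 : 0 < Real.log x := by linarith
  have hcardH := Rj_card (W := W x) (j := j) hx1 haQ hj
  have h0H : 0 ∉ Rj Q x (W x) a j := by
    intro h
    obtain ⟨i, hi⟩ := mem_Rj.1 h
    have h4 := (hsh i (j i) (mem_GG.1 hj i)).1
    rw [← hi] at h4
    have := Real.exp_pos (c' * YR k x)
    norm_num at h4
    linarith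
  have hgood : ∀ n, GoodR Q (Rj Q x (W x) a j) n ↔ GoodR Q R₀ n := goodR_iff haR haR'
  have hsing : sgR Q (Rj Q x (W x) a j) = sgR Q R₀ := by
    rw [sgR_eq, sgR_eq, hcardH, hR₀]
    have h4 : ccR Q (Rj Q x (W x) a j) = ccR Q R₀ := by
      unfold ccR
      congr 1
      refine filter_congr (fun n _ => hgood n)
    rw [h4]
  have hlog : ∀ h ∈ Rj Q x (W x) a j, c' * YR k x ≤ Real.log ((x : ℝ) * h) ∧ Real.log ((x : ℝ) * h) ≤ c * YR k x := by
    intro h hh
    obtain ⟨i, rfl⟩ := mem_Rj.1 hh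
    obtain ⟨h4, h5⟩ := hsh i (j i) (mem_GG.1 hj i)
    have h6 := Real.exp_pos (c' * YR k x)
    have h7 : Real.exp (c' * YR k x) ≤ (x : ℝ) * shR Q x (W x) a i (j i) := by nlinarith only [h4, hx1', h6]
    constructor
    · have h8 := Real.log_le_log (Real.exp_pos _) h7
      rwa [Real.log_exp] at h8
    · have h8 := Real.log_le_log (by linarith) (show (x : ℝ) * shR Q x (W x) a i (j i) ≤ Real.exp (c * YR k x) by linarith)
      rwa [Real.log_exp] at h8
  have hc'Y : 0 < c' * YR k x := by positivity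
  have hLL : (c' * YR k x) ^ k ≤ LR (Rj Q x (W x) a j) x ∧ LR (Rj Q x (W x) a j) x ≤ (c * YR k x) ^ k := by
    unfold LR
    constructor
    · calc (c' * YR k x) ^ k = ∏ _h ∈ Rj Q x (W x) a j, (c' * YR k x) := by rw [prod_const, hcardH]
        _ ≤ _ := prod_le_prod (fun _ _ => hc'Y.le) (fun h hh => (hlog h hh).1)
    · calc ∏ h ∈ Rj Q x (W x) a j, Real.log ((x : ℝ) * h) ≤ ∏ _h ∈ Rj Q x (W x) a j, (c * YR k x) :=
            prod_le_prod (fun h hh => hc'Y.le.trans (hlog h hh).1) (fun h hh => (hlog h hh).2)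
        _ = (c * YR k x) ^ k := by rw [prod_const, hcardH]
  have hpw : YR k x ^ (k + 1) = (x : ℝ) := YR_pow k x
  have hform : ∀ d : ℝ, 0 < d → s * x / (d * YR k x) ^ k = s * YR k x / d ^ k := by
    intro d hd
    rw [← hpw, mul_pow d (YR k x) k, pow_succ, mul_comm (YR k x ^ k) (YR k x), ← mul_assoc,
      mul_div_mul_right _ _ (by positivity)]
  have hLp : 0 < LR (Rj Q x (W x) a j) x := LR_pos h0H hlx
  have hMlo : l x ≤ MR Q (Rj Q x (W x) a j) x := by
    unfold MR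
    rw [hsing, ← hsd, hl]
    show s * YR k x / c ^ k ≤ s * x / LR (Rj Q x (W x) a j) x
    rw [← hform c hc]
    exact div_le_div_of_nonneg_left (by positivity) hLp hLL.2
  have hMhi : MR Q (Rj Q x (W x) a j) x ≤ (1 + η') * l x := by
    have h4 : MR Q (Rj Q x (W x) a j) x ≤ s * YR k x / c' ^ k := by
      unfold MR
      rw [hsing, ← hsd, ← hform c' hc'0]
      exact div_le_div_of_nonneg_left (by positivity) (by positivity) hLL.1
    refine h4.trans ?_
    have h5 : s * YR k x / c' ^ k = (c / c') ^ k * l x := by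
      rw [hl, div_pow]
      field_simp
    rw [h5]
    refine mul_le_mul_of_nonneg_right hc'4 ?_
    rw [hl]
    positivity
  have hl2 : 2 / ε₂ ≤ l x := by
    rw [hl]
    show 2 / ε₂ ≤ s * YR k x / c ^ k
    rw [le_div_iff₀ (by positivity)]
    have h7 := mul_le_mul_of_nonneg_right h3 hs.le
    have h8 : (Λ + 2 / ε₂) * (c ^ k / s) * s = (Λ + 2 / ε₂) * c ^ k := by field_simp
    have h9 : 0 ≤ Λ * c ^ k := by positivity
    linarith
  have hl0 : 0 < l x := lt_of_lt_of_le (by positivity) hl2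
  have hm1 : (m x : ℝ) ≤ u * l x := by rw [hm]; exact Nat.floor_le (by positivity)
  have hm2 : u * l x - 1 ≤ m x := by rw [hm]; exact (Nat.sub_one_lt_floor _).le
  have hone : 1 ≤ ε₂ / 2 * l x := by
    rw [div_le_iff₀ hε₂] at hl2
    linarith
  refine ⟨Rj Q x (W x) a j, hcardH, h0H, ?_, hgood, hsing, ?_, ?_⟩
  · intro h hh
    obtain ⟨i, rfl⟩ := mem_Rj.1 hh
    have h4 := (hsh i (j i) (mem_GG.1 hj i)).2
    have h5 : (0 : ℝ) ≤ shR Q x (W x) a i (j i) := Nat.cast_nonneg _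
    nlinarith only [h4, h5, hx1']
  · rw [hNN]
    exact hm1.trans (mul_le_mul_of_nonneg_left hMlo hu)
  · rw [hNN]
    obtain ⟨M, hMd⟩ : ∃ M, M = MR Q (Rj Q x (W x) a j) x := ⟨_, rfl⟩
    rw [← hMd] at hMlo hMhi ⊢
    have h4 : u * M ≤ u * ((1 + η') * l x) := mul_le_mul_of_nonneg_left hMhi hu
    have h5 : u * η' * l x ≤ ε₂ / 2 * l x := mul_le_mul_of_nonneg_right hη'2 hl0.le
    have h6 : ε₂ * l x ≤ ε₂ * M := mul_le_mul_of_nonneg_left hMlo hε₂.le
    nlinarith only [h4, h5, h6, hone, hm2]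

end Pool.Agent.Q106.QR
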