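import Pool.Agent.Q106.QR.Exi
import Pool.Agent.Q106.UR.Fin

/-!
# The law of the numbers of tuples, for all parameters at once
-/

set_option autoImplicit false

namespace Pool.Agent.Q106.QR

open Finset MeasureTheory ProbabilityTheory Filter Pool.Agent.Q120.GM Pool.Agent.Q106.UR
open scoped Topology

variable {Ω : Type*} [MeasurableSpace Ω] {μ : Measure Ω} [IsProbabilityMeasure μ] {A : Ω → Set ℕ}

/-- The sets of `k` positive coefficients up to `D` of class at least `s`. -/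
def ShR (Q k : ℕ) (D s : ℝ) (R : Finset ℕ) : Prop :=
  R.card = k ∧ 0 ∉ R ∧ (∀ r ∈ R, (r : ℝ) ≤ D) ∧ s ≤ sgR Q R

/-- The first part for all parameters. -/
theorem all_upR {Q : ℕ} (hA : IsModel μ (level Q) A) (hQ : 1 ≤ Q) :
    ∀ᵐ ω ∂μ, ∀ (k : ℕ) (c s u : ℝ), 1 ≤ k → 0 < c → 0 < s → 1 < u → k * c ^ (k + 1) < s * II u →
      ∀ᶠ x : ℕ in atTop, ∀ H : Finset ℕ, ShR Q k (Real.exp (c * YR k x)) s H →
        NR A H x ω < u * MR Q H x := by
  have h1 : ∀ᵐ ω ∂μ, ∀ (k : ℕ) (c s u : ℚ), 1 ≤ k → 0 < (c : ℝ) → 0 < (s : ℝ) → 1 < (u : ℝ) →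
      k * (c : ℝ) ^ (k + 1) < s * II u → ∀ᶠ x : ℕ in atTop, ∀ H : Finset ℕ, H.card = k → 0 ∉ H →
      (∀ h ∈ H, (h : ℝ) ≤ Real.exp (c * YR k x)) → (s : ℝ) ≤ sgR Q H →
      NR A H x ω < u * MR Q H x := by
    rw [ae_all_iff]
    intro k
    rw [ae_all_iff]
    intro c
    rw [ae_all_iff]
    intro s
    rw [ae_all_iff]
    intro u
    by_cases hall : 1 ≤ k ∧ 0 < (c : ℝ) ∧ 0 < (s : ℝ) ∧ 1 < (u : ℝ) ∧ k * (c : ℝ) ^ (k + 1) < s * II u
    · obtain ⟨a1, a2, a3, a4, a5⟩ := hall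
      filter_upwards [noR_up hA hQ a1 a2 a3 a4 a5] with ω hω _ _ _ _ _
      exact hω
    · exact Eventually.of_forall (fun ω a1 a2 a3 a4 a5 => absurd ⟨a1, a2, a3, a4, a5⟩ hall)
  filter_upwards [h1] with ω hω k c s u hk hc hs hu hcr
  obtain ⟨r, hr, h2⟩ := Metric.eventually_nhds_iff.1
    (((continuous_const.mul II_cont).tendsto u).eventually_const_lt (f := fun t => s * II t) hcr)
  obtain ⟨u', h3, h4⟩ := exists_rat_btwn (show max 1 (u - r) < u by exact max_lt hu (by linarith))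
  have h5 := (le_max_left 1 (u - r)).trans_lt h3
  have h6 := (le_max_right 1 (u - r)).trans_lt h3
  have h7 : k * c ^ (k + 1) < s * II u' := h2 (by
    rw [Real.dist_eq, abs_lt]
    constructor <;> linarith)
  have hI := II_pos (by linarith : (0 : ℝ) ≤ u') (by linarith : (u' : ℝ) ≠ 1)
  obtain ⟨s', h8, h9⟩ := exists_rat_btwn (show k * c ^ (k + 1) / II u' < s by
    rw [div_lt_iff₀ hI]
    exact h7)
  have hs' : 0 < (s' : ℝ) := lt_of_le_of_lt (by positivity) h8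
  rw [div_lt_iff₀ hI] at h8
  obtain ⟨c', h10, h11⟩ := c_near_up h8
  have h12 := hω k c' s' u' hk (by linarith) hs' h5 h11
  filter_upwards [h12, log_tendsto.eventually_ge_atTop 1] with x hx hlx H hH
  obtain ⟨e1, e2, e3, e4⟩ := hH
  have hYn := YR_nonneg k x
  have e5 := hx H e1 e2 (fun h hh => (e3 h hh).trans (Real.exp_le_exp.2 (mul_le_mul_of_nonneg_right h10.le hYn)))
    (h9.le.trans e4)
  refine e5.trans_le (mul_le_mul_of_nonneg_right h4.le ?_)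
  unfold MR
  have := LR_pos (R := H) e2 hlx
  have h13 : 0 ≤ sgR Q H := by linarith
  positivity

theorem all_dnR {Q : ℕ} (hA : IsModel μ (level Q) A) (hQ : 1 ≤ Q) :
    ∀ᵐ ω ∂μ, ∀ (k : ℕ) (c s u : ℝ), 1 ≤ k → 0 < c → 0 < s → 0 ≤ u → u < 1 → k * c ^ (k + 1) < s * II u →
      ∀ᶠ x : ℕ in atTop, ∀ H : Finset ℕ, ShR Q k (Real.exp (c * YR k x)) s H →
        u * MR Q H x < NR A H x ω := by
  have h1 : ∀ᵐ ω ∂μ, ∀ (k : ℕ) (c s u : ℚ), 1 ≤ k → 0 < (c : ℝ) → 0 < (s : ℝ) → 0 < (u : ℝ) → (u : ℝ) < 1 →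
      k * (c : ℝ) ^ (k + 1) < s * II u → ∀ᶠ x : ℕ in atTop, ∀ H : Finset ℕ, H.card = k → 0 ∉ H →
      (∀ h ∈ H, (h : ℝ) ≤ Real.exp (c * YR k x)) → (s : ℝ) ≤ sgR Q H →
      u * MR Q H x < NR A H x ω := by
    rw [ae_all_iff]
    intro k
    rw [ae_all_iff]
    intro c
    rw [ae_all_iff]
    intro s
    rw [ae_all_iff]
    intro u
    by_cases hall : 1 ≤ k ∧ 0 < (c : ℝ) ∧ 0 < (s : ℝ) ∧ 0 < (u : ℝ) ∧ (u : ℝ) < 1 ∧ k * (c : ℝ) ^ (k + 1) < s * II u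
    · obtain ⟨a1, a2, a3, a4, a5, a6⟩ := hall
      filter_upwards [noR_dn hA hQ a1 a2 a3 a4 a5 a6] with ω hω _ _ _ _ _ _
      exact hω
    · exact Eventually.of_forall (fun ω a1 a2 a3 a4 a5 a6 => absurd ⟨a1, a2, a3, a4, a5, a6⟩ hall)
  filter_upwards [h1] with ω hω k c s u hk hc hs hu0 hu hcr
  obtain ⟨r, hr, h2⟩ := Metric.eventually_nhds_iff.1
    (((continuous_const.mul II_cont).tendsto u).eventually_const_lt (f := fun t => s * II t) hcr)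
  obtain ⟨u', h3, h4⟩ := exists_rat_btwn (show u < min 1 (u + r) by exact lt_min hu (by linarith))
  have h5 := h4.trans_le (min_le_left 1 (u + r))
  have h6 := h4.trans_le (min_le_right 1 (u + r))
  have h7 : k * c ^ (k + 1) < s * II u' := h2 (by
    rw [Real.dist_eq, abs_lt]
    constructor <;> linarith)
  have hI := II_pos (by linarith : (0 : ℝ) ≤ u') (by linarith : (u' : ℝ) ≠ 1)
  obtain ⟨s', h8, h9⟩ := exists_rat_btwn (show k * c ^ (k + 1) / II u' < s by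
    rw [div_lt_iff₀ hI]
    exact h7)
  have hs' : 0 < (s' : ℝ) := lt_of_le_of_lt (by positivity) h8
  rw [div_lt_iff₀ hI] at h8
  obtain ⟨c', h10, h11⟩ := c_near_up h8
  have h12 := hω k c' s' u' hk (by linarith) hs' (by linarith) h5 h11
  filter_upwards [h12, log_tendsto.eventually_ge_atTop 1] with x hx hlx H hH
  obtain ⟨e1, e2, e3, e4⟩ := hH
  have hYn := YR_nonneg k x
  have e5 := hx H e1 e2 (fun h hh => (e3 h hh).trans (Real.exp_le_exp.2 (mul_le_mul_of_nonneg_right h10.le hYn)))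
    (h9.le.trans e4)
  refine lt_of_le_of_lt (mul_le_mul_of_nonneg_right h3.le ?_) e5
  unfold MR
  have := LR_pos (R := H) e2 hlx
  have h13 : 0 ≤ sgR Q H := by linarith
  positivity

theorem all_exR {Q : ℕ} (hA : IsModel μ (level Q) A) (hQ : 1 ≤ Q) :
    ∀ᵐ ω ∂μ, ∀ (k : ℕ) (R₀ : Finset ℕ) (c u ε : ℝ), 1 ≤ k → R₀.card = k → 0 < sgR Q R₀ →
      0 < c → 0 ≤ u → sgR Q R₀ * II u < k * c ^ (k + 1) → 0 < ε →
      ∀ᶠ x : ℕ in atTop, ∃ H : Finset ℕ, ShR Q k (Real.exp (c * YR k x)) (sgR Q R₀) H ∧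
        (∀ n, GoodR Q H n ↔ GoodR Q R₀ n) ∧ sgR Q H = sgR Q R₀ ∧
        |NR A H x ω - u * MR Q H x| ≤ ε * MR Q H x ∧
        (u = 0 → NR A H x ω = 0) := by
  have h1 : ∀ᵐ ω ∂μ, ∀ (k : ℕ) (R₀ : Finset ℕ) (c u ε : ℚ), 1 ≤ k → R₀.card = k →
      0 < sgR Q R₀ → 0 < (c : ℝ) → 0 ≤ (u : ℝ) → sgR Q R₀ * II u < k * (c : ℝ) ^ (k + 1) →
      0 < (ε : ℝ) → ∀ᶠ x : ℕ in atTop, ∃ H : Finset ℕ, H.card = k ∧ 0 ∉ H ∧
      (∀ h ∈ H, (h : ℝ) ≤ Real.exp (c * YR k x)) ∧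
      (∀ n, GoodR Q H n ↔ GoodR Q R₀ n) ∧ sgR Q H = sgR Q R₀ ∧
      NR A H x ω ≤ u * MR Q H x ∧ (u - ε) * MR Q H x ≤ NR A H x ω := by
    rw [ae_all_iff]
    intro k
    rw [ae_all_iff]
    intro R₀
    rw [ae_all_iff]
    intro c
    rw [ae_all_iff]
    intro u
    rw [ae_all_iff]
    intro ε
    by_cases hall : 1 ≤ k ∧ R₀.card = k ∧ 0 < sgR Q R₀ ∧ 0 < (c : ℝ) ∧ 0 ≤ (u : ℝ) ∧
        sgR Q R₀ * II u < k * (c : ℝ) ^ (k + 1) ∧ 0 < (ε : ℝ)
    · obtain ⟨a1, a2, a4, a5, a6, a7, a8⟩ := hall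
      filter_upwards [exists_devR hA hQ a1 a2 a4 a5 a6 a7 a8] with ω hω _ _ _ _ _ _ _
      exact hω
    · exact Eventually.of_forall (fun ω a1 a2 a4 a5 a6 a7 a8 => absurd ⟨a1, a2, a4, a5, a6, a7, a8⟩ hall)
  filter_upwards [h1] with ω hω k R₀ c u ε hk hR₀ hs hc hu hcr hε
  have hmain : ∃ u' c' ε' : ℚ, 0 < (c' : ℝ) ∧ (c' : ℝ) < c ∧ 0 ≤ (u' : ℝ) ∧ 0 < (ε' : ℝ) ∧
      sgR Q R₀ * II u' < k * (c' : ℝ) ^ (k + 1) ∧ (u' : ℝ) ≤ u + ε ∧ u - ε ≤ u' - ε' ∧ (u = 0 → (u' : ℝ) = 0) := by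
    rcases hu.lt_or_eq with hu0 | hu0
    · obtain ⟨r, hr, h2⟩ := Metric.eventually_nhds_iff.1
        (((continuous_const.mul II_cont).tendsto u).eventually_lt_const (f := fun t => sgR Q R₀ * II t) hcr)
      obtain ⟨u', h3, h4⟩ := exists_rat_btwn (show u < min (u + r) (u + ε) by exact lt_min (by linarith) (by linarith))
      have h5 := h4.trans_le (min_le_left (u + r) (u + ε))
      have h6 := h4.trans_le (min_le_right (u + r) (u + ε))
      have h7 : sgR Q R₀ * II u' < k * c ^ (k + 1) := h2 (by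
        rw [Real.dist_eq, abs_lt]
        constructor <;> linarith)
      obtain ⟨c', h8, h9, h10⟩ := c_near_dn hc h7
      obtain ⟨ε', h11, h12⟩ := exists_rat_btwn hε
      exact ⟨u', c', ε', h8, h9, by linarith, h11, h10, h6.le, by linarith, fun h => absurd h hu0.ne'⟩
    · rw [← hu0] at hcr
      obtain ⟨c', h8, h9, h10⟩ := c_near_dn hc hcr
      obtain ⟨ε', h11, h12⟩ := exists_rat_btwn hε
      refine ⟨0, c', ε', h8, h9, by norm_num, h11, by push_cast; exact h10, ?_, ?_, fun _ => by norm_num⟩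
      · push_cast
        linarith
      · push_cast
        linarith
  obtain ⟨u', c', ε', b1, b2, b3, b4, b5, b6, b7, b8⟩ := hmain
  filter_upwards [hω k R₀ c' u' ε' hk hR₀ hs b1 b3 b5 b4, log_tendsto.eventually_ge_atTop 1] with x hx hlx
  obtain ⟨H, e1, e2, e3, e4, e5, e6, e7⟩ := hx
  have hYn := YR_nonneg k x
  have hM : 0 ≤ MR Q H x := by
    unfold MR
    have := LR_pos (R := H) e2 hlx
    rw [e5]
    positivity
  refine ⟨H, ⟨e1, e2, fun h hh => (e3 h hh).trans (Real.exp_le_exp.2 (mul_le_mul_of_nonneg_right b2.le hYn)), e5.ge⟩,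
    e4, e5, ?_, ?_⟩
  · rw [abs_le]
    constructor
    · have := mul_le_mul_of_nonneg_right b7 hM
      linarith
    · have := mul_le_mul_of_nonneg_right b6 hM
      linarith
  · intro h
    rw [b8 h, zero_mul] at e6
    exact le_antisymm e6 (nm_nonneg _ _ _)

end Pool.Agent.Q106.QR
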