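import Pool.Agent.Q106.UR.Tail

/-!
# The forms `q r + 1`, `r ∈ R`, `x ≤ q < 2 x`
-/

set_option autoImplicit false

namespace Pool.Agent.Q106.QR

open Finset MeasureTheory ProbabilityTheory Filter Pool.Agent.Q120.GM Pool.Agent.Q106.UR
open scoped Topology

/-- The values at `q`. -/
def tq (R : Finset ℕ) (q : ℕ) : Finset ℕ := R.image (fun r => q * r + 1)

theorem mem_tq {R : Finset ℕ} {q m : ℕ} : m ∈ tq R q ↔ ∃ r ∈ R, m = q * r + 1 := by
  unfold tq
  rw [mem_image]
  constructor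
  · rintro ⟨r, h1, h2⟩
    exact ⟨r, h1, h2.symm⟩
  · rintro ⟨r, h1, h2⟩
    exact ⟨r, h1, h2.symm⟩

/-- All values at `q` are coprime to `Q`. -/
def GoodR (Q : ℕ) (R : Finset ℕ) (q : ℕ) : Prop := ∀ r ∈ R, (q * r + 1).Coprime Q

instance (Q : ℕ) (R : Finset ℕ) : DecidablePred (GoodR Q R) := fun n => by unfold GoodR; infer_instance

/-- The number of good classes. -/
def ccR (Q : ℕ) (R : Finset ℕ) : ℕ := ((range Q).filter (GoodR Q R)).card

/-- The singular series of level `Q`. -/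
noncomputable def sgR (Q : ℕ) (R : Finset ℕ) : ℝ := (ccR Q R : ℝ) / Q * ((Q : ℝ) / Nat.totient Q) ^ R.card

theorem goodR_periodic (Q : ℕ) (R : Finset ℕ) : Function.Periodic (GoodR Q R) Q := by
  intro n
  unfold GoodR
  rw [eq_iff_iff]
  refine forall₂_congr (fun r _ => ?_)
  rw [show (n + Q) * r + 1 = (n * r + 1) + Q * r by ring, Nat.coprime_add_mul_left_left]

theorem countR_blocks (Q : ℕ) (R : Finset ℕ) (a m : ℕ) :
    ((Ico a (a + m * Q)).filter (GoodR Q R)).card = m * ccR Q R := by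
  have hblock : ∀ a, ((Ico a (a + Q)).filter (GoodR Q R)).card = ccR Q R := by
    intro a
    rw [Nat.filter_Ico_card_eq_of_periodic _ _ _ (goodR_periodic Q R), Nat.count_eq_card_filter_range]
    rfl
  induction m with
  | zero => simp
  | succ m ih =>
    have h1 : Ico a (a + (m + 1) * Q) = Ico a (a + m * Q) ∪ Ico (a + m * Q) (a + m * Q + Q) := by
      rw [Ico_union_Ico_eq_Ico (by omega) (by omega)]
      congr 1
      ring
    rw [h1, filter_union, card_union_of_disjoint, ih, hblock]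
    · ring
    · exact (Ico_disjoint_Ico_consecutive _ _ _).mono (filter_subset _ _) (filter_subset _ _)

theorem countR_real {Q : ℕ} (hQ : 1 ≤ Q) (R : Finset ℕ) (a w : ℕ) :
    ((w : ℝ) - Q) * ((ccR Q R : ℝ) / Q) ≤ (((Ico a (a + w)).filter (GoodR Q R)).card : ℝ) ∧
      (((Ico a (a + w)).filter (GoodR Q R)).card : ℝ) ≤ ((w : ℝ) + Q) * ((ccR Q R : ℝ) / Q) := by
  have g1 := Nat.div_mul_le_self w Q
  have g2 : w < (w / Q + 1) * Q := by
    have := Nat.lt_div_mul_add (a := w) (b := Q) (by omega)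
    linarith [this, show (w / Q + 1) * Q = w / Q * Q + Q by ring]
  have h1 : w / Q * ccR Q R ≤ ((Ico a (a + w)).filter (GoodR Q R)).card := by
    rw [← countR_blocks Q R a]
    apply card_le_card
    apply filter_subset_filter
    exact Ico_subset_Ico_right (by omega)
  have h2 : ((Ico a (a + w)).filter (GoodR Q R)).card ≤ (w / Q + 1) * ccR Q R := by
    rw [← countR_blocks Q R a]
    apply card_le_card
    apply filter_subset_filter
    exact Ico_subset_Ico_right (by omega)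
  have hQ0 : (0 : ℝ) < Q := by exact_mod_cast hQ
  have h1' : ((w / Q : ℕ) : ℝ) * ccR Q R ≤ (((Ico a (a + w)).filter (GoodR Q R)).card : ℝ) := by exact_mod_cast h1
  have h2' : (((Ico a (a + w)).filter (GoodR Q R)).card : ℝ) ≤ (((w / Q : ℕ) : ℝ) + 1) * ccR Q R := by exact_mod_cast h2
  have h3 : ((w / Q : ℕ) : ℝ) ≤ w / Q := Nat.cast_div_le
  have h4 : (w : ℝ) / Q < ((w / Q : ℕ) : ℝ) + 1 := by
    rw [div_lt_iff₀ hQ0]
    have h5 : (w : ℝ) < (((w / Q + 1) * Q : ℕ) : ℝ) := by exact_mod_cast g2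
    push_cast at h5
    exact h5
  have hc : (0 : ℝ) ≤ ccR Q R := Nat.cast_nonneg _
  constructor
  · refine le_trans ?_ h1'
    have h5 : ((w : ℝ) - Q) * ((ccR Q R : ℝ) / Q) = ((w : ℝ) / Q - 1) * ccR Q R := by field_simp
    rw [h5]
    apply mul_le_mul_of_nonneg_right _ hc
    linarith
  · refine h2'.trans ?_
    have h5 : ((w : ℝ) + Q) * ((ccR Q R : ℝ) / Q) = ((w : ℝ) / Q + 1) * ccR Q R := by field_simp
    rw [h5]
    apply mul_le_mul_of_nonneg_right _ hc
    linarith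

theorem sgR_eq (Q : ℕ) (R : Finset ℕ) : sgR Q R = (ccR Q R : ℝ) / Q * qq Q ^ R.card := rfl

theorem qq_one {Q : ℕ} (hQ : 1 ≤ Q) : 1 ≤ qq Q := by
  unfold qq
  have h1 : 0 < Nat.totient Q := Nat.totient_pos.2 hQ
  have h2 : (0 : ℝ) < Nat.totient Q := by exact_mod_cast h1
  rw [le_div_iff₀ h2, one_mul]
  exact_mod_cast Nat.totient_le Q

theorem ccR_pos {Q : ℕ} {R : Finset ℕ} (hs : 0 < sgR Q R) : 1 ≤ ccR Q R := by
  by_contra hcon
  have h0 : ccR Q R = 0 := by omega
  unfold sgR at hs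
  rw [h0] at hs
  norm_num at hs

theorem sgR_ge {Q : ℕ} (hQ : 1 ≤ Q) {R : Finset ℕ} (hs : 0 < sgR Q R) : 1 / (Q : ℝ) ≤ sgR Q R := by
  have hQ0 : (0 : ℝ) < Q := by exact_mod_cast hQ
  have h1 : (1 : ℝ) ≤ ccR Q R := by exact_mod_cast ccR_pos hs
  rw [sgR_eq]
  have h2 : 1 ≤ qq Q ^ R.card := one_le_pow₀ (qq_one hQ)
  calc 1 / (Q : ℝ) ≤ (ccR Q R : ℝ) / Q := div_le_div_of_nonneg_right h1 hQ0.le
    _ = (ccR Q R : ℝ) / Q * 1 := by ring
    _ ≤ (ccR Q R : ℝ) / Q * qq Q ^ R.card := mul_le_mul_of_nonneg_left h2 (by positivity)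

/-- The product of the logarithms. -/
noncomputable def LR (R : Finset ℕ) (x : ℕ) : ℝ := ∏ r ∈ R, Real.log ((x : ℝ) * r)

/-- The predicted number. -/
noncomputable def MR (Q : ℕ) (R : Finset ℕ) (x : ℕ) : ℝ := sgR Q R * x / LR R x

theorem prod_tq {R : Finset ℕ} {q : ℕ} (hq : 1 ≤ q) (f : ℕ → ℝ) : ∏ m ∈ tq R q, f m = ∏ r ∈ R, f (q * r + 1) := by
  unfold tq
  rw [prod_image]
  intro a _ b _ h
  have h1 : q * a + 1 = q * b + 1 := h
  exact Nat.eq_of_mul_eq_mul_left hq (by omega)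

theorem log_mul_ge {x r : ℕ} (hx : 1 ≤ x) (hr : 1 ≤ r) : Real.log x ≤ Real.log ((x : ℝ) * r) := by
  have hx0 : (0 : ℝ) < x := by exact_mod_cast hx
  have hr1 : (1 : ℝ) ≤ r := by exact_mod_cast hr
  refine Real.log_le_log hx0 ?_
  nlinarith

theorem LR_pos {R : Finset ℕ} {x : ℕ} (h0 : 0 ∉ R) (hx : 1 ≤ Real.log x) : 0 < LR R x := by
  have hx1 : 1 ≤ x := by
    rcases Nat.eq_zero_or_pos x with h | h
    · rw [h] at hx
      norm_num at hx
    · exact h
  unfold LR
  refine prod_pos (fun r hr => ?_)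
  have hr1 : 1 ≤ r := by
    rcases Nat.eq_zero_or_pos r with h | h
    · rw [h] at hr
      exact absurd hr h0
    · exact h
  have := log_mul_ge hx1 hr1
  linarith

/-- The probability of a good argument. -/
theorem pR_bounds {Q K x q : ℕ} {R : Finset ℕ} (hR : R.card = K) (h0 : 0 ∉ R) (hx : 1 ≤ Real.log x)
    (hqx : qq Q ≤ Real.log x) (hq1 : x ≤ q) (hq2 : q < 2 * x) {τ : ℝ} (hτ : Real.log 2 ≤ τ * Real.log x) (hτ0 : 0 ≤ τ)
    (hg : GoodR Q R q) : qq Q ^ K / LR R x / (1 + τ) ^ K ≤ pT (level Q) (tq R q) ∧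
      pT (level Q) (tq R q) ≤ qq Q ^ K / LR R x := by
  have hx1 : 1 ≤ x := by
    rcases Nat.eq_zero_or_pos x with h | h
    · rw [h] at hx
      norm_num at hx
    · exact h
  have hx0 : (0 : ℝ) < x := by exact_mod_cast hx1
  have hqq : 0 ≤ qq Q := by unfold qq; positivity
  have hr1 : ∀ r ∈ R, 1 ≤ r := by
    intro r hr
    rcases Nat.eq_zero_or_pos r with h | h
    · rw [h] at hr
      exact absurd hr h0
    · exact h
  have hone : ∀ r ∈ R, qq Q / Real.log ((x : ℝ) * r) / (1 + τ) ≤ level Q (q * r + 1) ∧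
      level Q (q * r + 1) ≤ qq Q / Real.log ((x : ℝ) * r) := by
    intro r hr
    have h1 := hr1 r hr
    have h1' : (1 : ℝ) ≤ r := by exact_mod_cast h1
    have hl := log_mul_ge hx1 h1
    have hl0 : 0 < Real.log ((x : ℝ) * r) := by linarith
    have hxr : 0 < (x : ℝ) * r := by positivity
    have hlow : (x : ℝ) * r ≤ ((q * r + 1 : ℕ) : ℝ) := by
      have : (x : ℝ) ≤ q := by exact_mod_cast hq1
      push_cast
      nlinarith
    have hupp : ((q * r + 1 : ℕ) : ℝ) ≤ 2 * ((x : ℝ) * r) := by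
      have h2 : q * r + 1 ≤ 2 * (x * r) := by
        have : (q + 1) * r ≤ 2 * x * r := Nat.mul_le_mul_right _ (by omega)
        nlinarith
      exact_mod_cast h2
    constructor
    · have h3 := le_level (Q := Q) (m := q * r + 1) (x := (x : ℝ) * r) (y := 2 * ((x : ℝ) * r)) (by linarith) hl0 hxr hlow
        hupp (hg r hr)
      refine le_trans ?_ h3
      rw [Real.log_mul (by norm_num) hxr.ne', div_div]
      refine div_le_div_of_nonneg_left hqq (by have := Real.log_pos (show (1 : ℝ) < 2 by norm_num); linarith) ?_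
      have h4 : τ * Real.log x ≤ τ * Real.log ((x : ℝ) * r) := mul_le_mul_of_nonneg_left hl hτ0
      nlinarith
    · exact level_le hl0 hxr hlow
  unfold pT
  rw [prod_tq (by omega)]
  constructor
  · have h1 : qq Q ^ K / LR R x / (1 + τ) ^ K = ∏ r ∈ R, (qq Q / Real.log ((x : ℝ) * r) / (1 + τ)) := by
      unfold LR
      rw [prod_div_distrib, prod_div_distrib, prod_const, prod_const, hR]
    rw [h1]
    refine prod_le_prod (fun r hr => ?_) (fun r hr => (hone r hr).1)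
    have := log_mul_ge hx1 (hr1 r hr)
    have hl0 : 0 < Real.log ((x : ℝ) * r) := by linarith
    positivity
  · have h1 : qq Q ^ K / LR R x = ∏ r ∈ R, (qq Q / Real.log ((x : ℝ) * r)) := by
      unfold LR
      rw [prod_div_distrib, prod_const, hR]
    rw [h1]
    exact prod_le_prod (fun r _ => level_nonneg Q _) (fun r hr => (hone r hr).2)

theorem pR_zero {Q q : ℕ} {R : Finset ℕ} (hg : ¬ GoodR Q R q) : pT (level Q) (tq R q) = 0 := by
  unfold GoodR at hg
  push Not at hg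
  obtain ⟨r, hr, h⟩ := hg
  unfold pT
  refine prod_eq_zero (mem_tq.2 ⟨r, hr, rfl⟩) ?_
  unfold level
  rw [if_neg h]

/-- The values at one argument are never contained in those at another one. -/
theorem tq_ne {R : Finset ℕ} (hR : R.Nonempty) (h0 : 0 ∉ R) {i j : ℕ} (hij : i ≠ j) : ¬ tq R j ⊆ tq R i := by
  intro h
  have hpos : ∀ r ∈ R, 0 < r := fun r hr => by
    rcases Nat.eq_zero_or_pos r with h1 | h1
    · rw [h1] at hr
      exact absurd hr h0
    · exact h1
  rcases Nat.lt_or_gt_of_ne hij with hlt | hgt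
  · obtain ⟨f, hf, hmax⟩ := Finset.exists_max_image R (fun f => f) hR
    obtain ⟨g, hg, e⟩ := mem_tq.1 (h (mem_tq.2 ⟨f, hf, rfl⟩))
    have h1 : g ≤ f := hmax g hg
    have h2 : i * g < j * f := by
      calc i * g ≤ i * f := Nat.mul_le_mul_left _ h1
        _ < j * f := Nat.mul_lt_mul_of_pos_right hlt (hpos f hf)
    omega
  · obtain ⟨f, hf, hmin⟩ := Finset.exists_min_image R (fun f => f) hR
    obtain ⟨g, hg, e⟩ := mem_tq.1 (h (mem_tq.2 ⟨f, hf, rfl⟩))
    have h1 : f ≤ g := hmin g hg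
    have h2 : j * f < i * g := by
      calc j * f < i * f := Nat.mul_lt_mul_of_pos_right hgt (hpos f hf)
        _ ≤ i * g := Nat.mul_le_mul_left _ h1
    omega

theorem pairR_le {Q : ℕ} {R : Finset ℕ} (hR : R.Nonempty) (h0 : 0 ∉ R) {i j : ℕ} (hij : i ≠ j) {x : ℝ}
    (hx : 0 < Real.log x) (hx0 : 0 < x) (hj : x ≤ j) :
    pT (level Q) (tq R i ∪ tq R j) ≤ pT (level Q) (tq R i) * (qq Q / Real.log x) := by
  have h1 := tq_ne hR h0 hij
  rw [Finset.not_subset] at h1
  obtain ⟨b, hb1, hb2⟩ := h1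
  have h2 : insert b (tq R i) ⊆ tq R i ∪ tq R j := by
    intro c hc
    rw [mem_insert] at hc
    rcases hc with rfl | hc
    · exact mem_union_right _ hb1
    · exact mem_union_left _ hc
  refine (pT_mono Q h2).trans ?_
  unfold pT
  rw [prod_insert hb2, mul_comm]
  refine mul_le_mul_of_nonneg_left ?_ (prod_nonneg (fun i _ => level_nonneg Q i))
  obtain ⟨r, hr, rfl⟩ := mem_tq.1 hb1
  refine level_le hx hx0 ?_
  push_cast
  have e1 : (1 : ℝ) ≤ r := by
    have : 1 ≤ r := by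
      rcases Nat.eq_zero_or_pos r with h1 | h1
      · rw [h1] at hr
        exact absurd hr h0
      · exact h1
    exact_mod_cast this
  have e3 : (0 : ℝ) ≤ j := Nat.cast_nonneg _
  nlinarith

theorem confR_card (R : Finset ℕ) (h0 : 0 ∉ R) (J : Finset ℕ) (i : ℕ) :
    (J.filter (fun j => i ≠ j ∧ ¬ Disjoint (tq R i) (tq R j))).card ≤ R.card ^ 2 := by
  rw [sq, ← card_product]
  have h4 : J.filter (fun j => i ≠ j ∧ ¬ Disjoint (tq R i) (tq R j)) ⊆
      (R ×ˢ R).image (fun e : ℕ × ℕ => (i * e.1) / e.2) := by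
    intro l hl
    rw [mem_filter, Finset.not_disjoint_iff] at hl
    obtain ⟨_, _, b, hi1, hi2⟩ := hl
    obtain ⟨f, hf, e1⟩ := mem_tq.1 hi1
    obtain ⟨g, hg, e2⟩ := mem_tq.1 hi2
    rw [mem_image]
    refine ⟨(f, g), mem_product.2 ⟨hf, hg⟩, ?_⟩
    show i * f / g = l
    have e3 : i * f = l * g := by omega
    rw [e3]
    refine Nat.mul_div_cancel l ?_
    rcases Nat.eq_zero_or_pos g with h1 | h1
    · rw [h1] at hg
      exact absurd hg h0
    · exact h1
  exact (card_le_card h4).trans card_image_le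

theorem coverR_card (R : Finset ℕ) (h0 : 0 ∉ R) (J : Finset ℕ) (b : ℕ) :
    (J.filter (fun j => b ∈ tq R j)).card ≤ R.card := by
  have h1 : J.filter (fun j => b ∈ tq R j) ⊆ R.image (fun r => (b - 1) / r) := by
    intro j hj
    rw [mem_filter, mem_tq] at hj
    obtain ⟨_, r, hr, e⟩ := hj
    rw [mem_image]
    refine ⟨r, hr, ?_⟩
    rw [e, Nat.add_sub_cancel]
    refine Nat.mul_div_cancel j ?_
    rcases Nat.eq_zero_or_pos r with h1 | h1
    · rw [h1] at hr
      exact absurd hr h0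
    · exact h1
  exact (card_le_card h1).trans card_image_le

/-- The number of the arguments `q` in `[x, 2 x)` at which all values are in the set. -/
noncomputable def NR {Ω : Type*} (A : Ω → Set ℕ) (R : Finset ℕ) (x : ℕ) (ω : Ω) : ℝ := nm A (Ico x (2 * x)) (tq R) ω

/-- The means. -/
theorem meanR_facts {Q K : ℕ} (hQ : 1 ≤ Q) (hK : 1 ≤ K) {ε : ℝ} (hε : 0 < ε) : ∀ᶠ x : ℕ in atTop,
    1 ≤ Real.log x ∧ ∀ R : Finset ℕ, R.card = K → 0 ∉ R → 0 < sgR Q R →
      0 < MR Q R x ∧ ∑ q ∈ Ico x (2 * x), pT (level Q) (tq R q) ≤ (1 + ε) * MR Q R x ∧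
      (1 - ε) * MR Q R x ≤ ∑ q ∈ Ico x (2 * x), pT (level Q) (tq R q) ∧
      ∑ e ∈ cf (Ico x (2 * x)) (tq R), pT (level Q) (tq R e.1 ∪ tq R e.2) ≤ ε * MR Q R x ∧
      ∀ q ∈ Ico x (2 * x), pT (level Q) (tq R q) ≤ ε := by
  have hq := qq_pos hQ
  have hQ0 : (0 : ℝ) < Q := by exact_mod_cast hQ
  have hK0 : (0 : ℝ) < K := by exact_mod_cast hK
  obtain ⟨η, hη⟩ : ∃ η, η = min (1 / 2) (ε / (2 * (K + 1))) := ⟨_, rfl⟩
  have hη0 : 0 < η := by rw [hη]; exact lt_min (by norm_num) (by positivity)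
  have hη1 : η ≤ 1 / 2 := by rw [hη]; exact min_le_left _ _
  have hη2 : η * (2 * (K + 1)) ≤ ε := by
    have h1 : η ≤ ε / (2 * (K + 1)) := by rw [hη]; exact min_le_right _ _
    rwa [le_div_iff₀ (by positivity)] at h1
  filter_upwards [log_tendsto.eventually_ge_atTop 1, log_tendsto.eventually_ge_atTop (qq Q / η),
    log_tendsto.eventually_ge_atTop (Real.log 2 / η), log_tendsto.eventually_ge_atTop (qq Q),
    log_tendsto.eventually_ge_atTop (2 * (K : ℝ) ^ 2 * qq Q / ε), log_tendsto.eventually_ge_atTop (qq Q / ε),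
    (tendsto_natCast_atTop_atTop (R := ℝ)).eventually_ge_atTop (Q / η)] with x h1 h2 h3 h4 h5 h6 h7
  refine ⟨h1, ?_⟩
  intro R hR h0 hs
  have hx1 : 1 ≤ x := by
    rcases Nat.eq_zero_or_pos x with h | h
    · rw [h] at h1
      norm_num at h1
    · exact h
  have hx0 : (0 : ℝ) < x := by exact_mod_cast hx1
  have hl0 : 0 < Real.log x := by linarith
  have hRne : R.Nonempty := by
    rw [← card_pos, hR]
    omega
  have hLp := LR_pos h0 h1
  obtain ⟨M, hM⟩ : ∃ M, M = MR Q R x := ⟨_, rfl⟩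
  have hMpos : 0 < M := by
    rw [hM]
    unfold MR
    positivity
  have hMeq : M = (ccR Q R : ℝ) / Q * (qq Q ^ K / LR R x) * x := by
    rw [hM]
    unfold MR
    rw [sgR_eq, hR]
    ring
  have hτ : Real.log 2 ≤ η * Real.log x := by
    rw [div_le_iff₀ hη0] at h3
    linarith
  have hQx : (Q : ℝ) ≤ η * x := by
    rw [div_le_iff₀ hη0] at h7
    linarith
  rw [← hM]
  have hsplit : ∑ q ∈ Ico x (2 * x), pT (level Q) (tq R q) = ∑ q ∈ (Ico x (2 * x)).filter (GoodR Q R), pT (level Q) (tq R q) := by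
    rw [sum_filter]
    refine sum_congr rfl (fun q _ => ?_)
    by_cases hg : GoodR Q R q
    · rw [if_pos hg]
    · rw [if_neg hg, pR_zero hg]
  have hcnt := countR_real hQ R x x
  rw [show x + x = 2 * x by ring] at hcnt
  have hP0 : 0 ≤ qq Q ^ K / LR R x := by positivity
  have hcc : (0 : ℝ) ≤ (ccR Q R : ℝ) / Q := by positivity
  have hb : ∀ q ∈ (Ico x (2 * x)).filter (GoodR Q R), qq Q ^ K / LR R x / (1 + η) ^ K ≤ pT (level Q) (tq R q) ∧
      pT (level Q) (tq R q) ≤ qq Q ^ K / LR R x := by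
    intro q hq'
    rw [mem_filter, mem_Ico] at hq'
    exact pR_bounds hR h0 h1 h4 hq'.1.1 hq'.1.2 hτ hη0.le hq'.2
  have hup : ∑ q ∈ Ico x (2 * x), pT (level Q) (tq R q) ≤ (1 + η) * M := by
    rw [hsplit]
    refine (sum_le_sum (fun q hq' => (hb q hq').2)).trans ?_
    rw [sum_const, nsmul_eq_mul]
    refine (mul_le_mul_of_nonneg_right hcnt.2 hP0).trans ?_
    rw [hMeq]
    have h8 : ((x : ℝ) + Q) * ((ccR Q R : ℝ) / Q) * (qq Q ^ K / LR R x) =
        ((x : ℝ) + Q) * ((ccR Q R : ℝ) / Q * (qq Q ^ K / LR R x)) := by ring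
    rw [h8]
    have h9 : (x : ℝ) + Q ≤ (1 + η) * x := by linarith
    refine (mul_le_mul_of_nonneg_right h9 (by positivity)).trans (le_of_eq (by ring))
  have hlo : (1 - (K + 1) * η) * M ≤ ∑ q ∈ Ico x (2 * x), pT (level Q) (tq R q) := by
    rw [hsplit]
    refine le_trans ?_ (sum_le_sum (fun q hq' => (hb q hq').1))
    rw [sum_const, nsmul_eq_mul]
    have hP1 : 0 ≤ qq Q ^ K / LR R x / (1 + η) ^ K := by positivity
    refine le_trans ?_ (mul_le_mul_of_nonneg_right hcnt.1 hP1)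
    have h8 : ((x : ℝ) - Q) * ((ccR Q R : ℝ) / Q) * (qq Q ^ K / LR R x / (1 + η) ^ K) =
        (((x : ℝ) - Q) / x) * (1 / (1 + η) ^ K) * M := by
      rw [hMeq]
      field_simp
    rw [h8]
    refine mul_le_mul_of_nonneg_right ?_ hMpos.le
    have h9 : 1 - η ≤ ((x : ℝ) - Q) / x := by
      rw [le_div_iff₀ hx0]
      linarith
    have h10 : 1 - K * η ≤ 1 / (1 + η) ^ K := by
      have h11 : (1 : ℝ) - η ≤ 1 / (1 + η) := by
        rw [le_div_iff₀ (by positivity)]
        nlinarith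
      have h12 : (1 - η) ^ K ≤ (1 / (1 + η)) ^ K := pow_le_pow_left₀ (by linarith) h11 K
      rw [div_pow, one_pow] at h12
      refine le_trans ?_ h12
      have h13 := one_add_mul_le_pow (show (-2 : ℝ) ≤ -η by linarith) K
      calc 1 - K * η = 1 + K * (-η) := by ring
        _ ≤ (1 + -η) ^ K := h13
        _ = (1 - η) ^ K := by rw [← sub_eq_add_neg]
    have h13 : 0 ≤ 1 / (1 + η) ^ K := by positivity
    have h14 : (1 - η) * (1 / (1 + η) ^ K) ≤ ((x : ℝ) - Q) / x * (1 / (1 + η) ^ K) := mul_le_mul_of_nonneg_right h9 h13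
    have h15 : (1 : ℝ) / (1 + η) ^ K ≤ 1 := by
      rw [div_le_one (by positivity)]
      exact one_le_pow₀ (by linarith)
    nlinarith
  have hKη : (K + 1) * η ≤ ε := by nlinarith
  have hηε : η ≤ ε := by nlinarith
  refine ⟨hMpos, ?_, ?_, ?_, ?_⟩
  · refine hup.trans (mul_le_mul_of_nonneg_right (by linarith) hMpos.le)
  · refine le_trans (mul_le_mul_of_nonneg_right (by linarith) hMpos.le) hlo
  · rw [sum_cf]
    have h8 : ∀ j ∈ Ico x (2 * x), ∑ l ∈ Ico x (2 * x) with j ≠ l ∧ ¬ Disjoint (tq R j) (tq R l),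
        pT (level Q) (tq R j ∪ tq R l) ≤ pT (level Q) (tq R j) * (K ^ 2 * (qq Q / Real.log x)) := by
      intro j hj
      have h9 : ∀ l ∈ (Ico x (2 * x)).filter (fun l => j ≠ l ∧ ¬ Disjoint (tq R j) (tq R l)),
          pT (level Q) (tq R j ∪ tq R l) ≤ pT (level Q) (tq R j) * (qq Q / Real.log x) := by
        intro l hl
        rw [mem_filter, mem_Ico] at hl
        exact pairR_le hRne h0 hl.2.1 hl0 hx0 (by exact_mod_cast hl.1.1)
      refine (sum_le_sum h9).trans ?_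
      rw [sum_const, nsmul_eq_mul]
      have h10 := confR_card R h0 (Ico x (2 * x)) j
      rw [hR] at h10
      have h11 : (((Ico x (2 * x)).filter (fun l => j ≠ l ∧ ¬ Disjoint (tq R j) (tq R l))).card : ℝ) ≤ (K : ℝ) ^ 2 := by
        exact_mod_cast h10
      have h12 : 0 ≤ pT (level Q) (tq R j) * (qq Q / Real.log x) := by
        have : 0 ≤ pT (level Q) (tq R j) := prod_nonneg (fun i _ => level_nonneg Q i)
        positivity
      refine (mul_le_mul_of_nonneg_right h11 h12).trans (le_of_eq (by ring))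
    refine (sum_le_sum h8).trans ?_
    rw [← sum_mul]
    have h9 : (K : ℝ) ^ 2 * (qq Q / Real.log x) ≤ ε / 2 := by
      rw [mul_div_assoc', div_le_iff₀ hl0]
      rw [div_le_iff₀ hε] at h5
      linarith
    have h10 : ∑ q ∈ Ico x (2 * x), pT (level Q) (tq R q) ≤ 2 * M := by
      refine hup.trans (mul_le_mul_of_nonneg_right (by linarith) hMpos.le)
    have h11 : 0 ≤ (K : ℝ) ^ 2 * (qq Q / Real.log x) := by positivity
    calc (∑ q ∈ Ico x (2 * x), pT (level Q) (tq R q)) * ((K : ℝ) ^ 2 * (qq Q / Real.log x)) ≤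
        (2 * M) * (ε / 2) := mul_le_mul h10 h9 h11 (by positivity)
      _ = ε * M := by ring
  · intro q hq'
    rw [mem_Ico] at hq'
    obtain ⟨r, hr⟩ := hRne
    have h8 : ({q * r + 1} : Finset ℕ) ⊆ tq R q := by
      rw [singleton_subset_iff, mem_tq]
      exact ⟨r, hr, rfl⟩
    refine (pT_mono Q h8).trans ?_
    unfold pT
    rw [prod_singleton]
    have hr1 : 1 ≤ r := by
      rcases Nat.eq_zero_or_pos r with h9 | h9
      · rw [h9] at hr
        exact absurd hr h0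
      · exact h9
    have h9 : (x : ℝ) ≤ ((q * r + 1 : ℕ) : ℝ) := by
      have : x ≤ q * r + 1 := by nlinarith [hq'.1]
      exact_mod_cast this
    refine (level_le hl0 hx0 h9).trans ?_
    rw [div_le_iff₀ hl0]
    rw [div_le_iff₀ hε] at h6
    linarith

end Pool.Agent.Q106.QR
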