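import Pool.Agent.Q106.QR.Mean
import Pool.Agent.Q106.UR.Uni

/-!
# The tails of the number of arguments, uniformly in the forms
-/

set_option autoImplicit false

namespace Pool.Agent.Q106.QR

open Finset MeasureTheory ProbabilityTheory Filter Pool.Agent.Q120.GM Pool.Agent.Q106.UR
open scoped Topology

variable {Ω : Type*} [MeasurableSpace Ω] {μ : Measure Ω} [IsProbabilityMeasure μ] {A : Ω → Set ℕ}

theorem tailR_up {Q K : ℕ} (hA : IsModel μ (level Q) A) (hQ : 1 ≤ Q) (hK : 1 ≤ K) {u ε : ℝ} (hu : 1 ≤ u)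
    (hε : 0 < ε) : ∀ᶠ x : ℕ in atTop, ∀ S : Finset ℕ, S.card = K → 0 ∉ S → 0 < sgR Q S →
    μ.real {ω | u * MR Q S x ≤ NR A S x ω} ≤ (u + 1) * Real.exp (-(MR Q S x * (II u - ε))) := by
  have hK0 : (1 : ℝ) ≤ K := by exact_mod_cast hK
  have hu0 : 0 < u := by linarith
  have hlu : 0 ≤ Real.log u := Real.log_nonneg hu
  obtain ⟨η, hη⟩ : ∃ η, η = min (ε / (2 * (Real.log u + 1))) (u / 2) := ⟨_, rfl⟩
  have hη0 : 0 < η := by rw [hη]; exact lt_min (by positivity) (by positivity)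
  have hη1 : η * Real.log u ≤ ε / 2 := by
    have h1 : η ≤ ε / (2 * (Real.log u + 1)) := by rw [hη]; exact min_le_left _ _
    have h2 : η * (2 * (Real.log u + 1)) ≤ ε := by
      rw [le_div_iff₀ (by positivity)] at h1
      exact h1
    nlinarith
  have hη2 : η ≤ u := by
    have : η ≤ u / 2 := by rw [hη]; exact min_le_right _ _
    linarith
  obtain ⟨B, hB⟩ : ∃ B, B = 2 * (K : ℝ) ^ 2 * (1 + II u) / η := ⟨_, rfl⟩
  have hB0 : 0 ≤ B := by
    have := II_nonneg hu0.le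
    rw [hB]
    positivity
  obtain ⟨δ, hδ⟩ : ∃ δ, δ = min (Real.exp (-B)) (ε / (2 * u)) := ⟨_, rfl⟩
  have hδ0 : 0 < δ := by rw [hδ]; exact lt_min (Real.exp_pos _) (by positivity)
  have hδ1 : δ ≤ Real.exp (-B) := by rw [hδ]; exact min_le_left _ _
  have hδ2 : (u - 1) * δ ≤ ε / 2 := by
    have h1 : δ ≤ ε / (2 * u) := by rw [hδ]; exact min_le_right _ _
    have h2 : δ * (2 * u) ≤ ε := by
      rw [le_div_iff₀ (by positivity)] at h1
      exact h1
    nlinarith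
  filter_upwards [meanR_facts hQ hK hδ0] with x hx S hS h0S hs
  obtain ⟨hM, h1, _, h3, _⟩ := hx.2 S hS h0S hs
  obtain ⟨M, hMd⟩ : ∃ M, M = MR Q S x := ⟨_, rfl⟩
  rw [← hMd] at hM h1 h3 ⊢
  obtain ⟨a, ha⟩ : ∃ a, a = ⌊(u - η) * M⌋₊ := ⟨_, rfl⟩
  obtain ⟨r, hr⟩ : ∃ r, r = ⌊η * M / (2 * (K : ℝ) ^ 2)⌋₊ := ⟨_, rfl⟩
  have ha1 : (a : ℝ) ≤ (u - η) * M := by
    rw [ha]
    exact Nat.floor_le (mul_nonneg (by linarith) hM.le)
  have ha2 : (u - η) * M - 1 ≤ a := by
    rw [ha]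
    exact (Nat.sub_one_lt_floor _).le
  have hr1 : (r : ℝ) ≤ η * M / (2 * (K : ℝ) ^ 2) := by
    rw [hr]
    exact Nat.floor_le (by positivity)
  have hr2 : η * M / (2 * (K : ℝ) ^ 2) ≤ ((r + 1 : ℕ) : ℝ) := by
    rw [hr]
    push_cast
    exact (Nat.lt_floor_add_one _).le
  have hexpB : 1 ≤ Real.exp B := Real.one_le_exp hB0
  have h4 := upper hA (Ico x (2 * x)) (tq S) (K := K) (m := (1 + δ) * M) (D := δ * M) (z := u) (y := Real.exp B)
    (fun j _ => by
      unfold tq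
      exact card_image_le.trans hS.le) (fun b => by rw [← hS]; exact coverR_card S h0S _ b) h1 h3 hu hexpB a r
  have h5 : {ω | u * M ≤ NR A S x ω} ⊆ {ω | (a : ℝ) + 2 * (K : ℝ) ^ 2 * r ≤ nm A (Ico x (2 * x)) (tq S) ω} := by
    intro ω hω
    have hω' : u * M ≤ nm A (Ico x (2 * x)) (tq S) ω := hω
    show (a : ℝ) + 2 * (K : ℝ) ^ 2 * r ≤ nm A (Ico x (2 * x)) (tq S) ω
    have h6 : 2 * (K : ℝ) ^ 2 * r ≤ η * M := by
      rw [le_div_iff₀ (by positivity)] at hr1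
      linarith
    linarith
  refine (measureReal_mono h5 (measure_ne_top _ _)).trans (h4.trans ?_)
  have hsplit : (u + 1) * Real.exp (-(M * (II u - ε))) = u * Real.exp (-(M * (II u - ε))) +
      Real.exp (-(M * (II u - ε))) := by ring
  rw [hsplit]
  refine add_le_add ?_ ?_
  · -- the first term
    have h6 : (u ^ a)⁻¹ ≤ u * Real.exp (-((u - η) * M * Real.log u)) := by
      have h7 : Real.exp (((u - η) * M - 1) * Real.log u) ≤ u ^ a := by
        rw [← Real.rpow_natCast u a, Real.rpow_def_of_pos hu0]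
        refine Real.exp_le_exp.2 ?_
        rw [mul_comm (Real.log u)]
        exact mul_le_mul_of_nonneg_right ha2 hlu
      refine (inv_anti₀ (Real.exp_pos _) h7).trans (le_of_eq ?_)
      rw [← Real.exp_neg]
      have h8 : Real.exp (Real.log u) = u := Real.exp_log hu0
      calc Real.exp (-(((u - η) * M - 1) * Real.log u)) =
          Real.exp (Real.log u + -((u - η) * M * Real.log u)) := by congr 1; ring
        _ = Real.exp (Real.log u) * Real.exp (-((u - η) * M * Real.log u)) := Real.exp_add _ _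
        _ = u * Real.exp (-((u - η) * M * Real.log u)) := by rw [h8]
    rw [div_eq_mul_inv]
    refine (mul_le_mul_of_nonneg_left h6 (Real.exp_pos _).le).trans ?_
    have h8 : Real.exp ((u - 1) * ((1 + δ) * M)) * (u * Real.exp (-((u - η) * M * Real.log u))) =
        u * Real.exp ((u - 1) * ((1 + δ) * M) + -((u - η) * M * Real.log u)) := by
      rw [Real.exp_add]
      ring
    rw [h8]
    refine mul_le_mul_of_nonneg_left (Real.exp_le_exp.2 ?_) hu0.le
    unfold II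
    have h9 := mul_le_mul_of_nonneg_right hη1 hM.le
    have h10 := mul_le_mul_of_nonneg_right hδ2 hM.le
    linarith
  · rw [div_eq_mul_inv, ← Real.exp_nat_mul, ← Real.exp_neg, ← Real.exp_add]
    refine Real.exp_le_exp.2 ?_
    have h6 : (Real.exp B - 1) * (δ * M) ≤ M := by
      have h7 : Real.exp B * δ ≤ 1 := by
        calc Real.exp B * δ ≤ Real.exp B * Real.exp (-B) := mul_le_mul_of_nonneg_left hδ1 (Real.exp_pos _).le
          _ = 1 := by rw [← Real.exp_add]; norm_num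
      have h8 : 0 ≤ δ * M := by positivity
      have h9 := mul_le_mul_of_nonneg_right h7 hM.le
      nlinarith
    have h7 : M * (1 + II u) ≤ ((r + 1 : ℕ) : ℝ) * B := by
      have h8 := mul_le_mul_of_nonneg_right hr2 hB0
      refine le_trans (le_of_eq ?_) h8
      rw [hB]
      field_simp
    nlinarith

theorem tailR_dn {Q K : ℕ} (hA : IsModel μ (level Q) A) (hQ : 1 ≤ Q) (hK : 1 ≤ K) {u ε : ℝ} (hu0 : 0 < u)
    (hu : u ≤ 1) (hε : 0 < ε) : ∀ᶠ x : ℕ in atTop, ∀ S : Finset ℕ, S.card = K → 0 ∉ S → 0 < sgR Q S →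
    μ.real {ω | NR A S x ω ≤ u * MR Q S x} ≤ Real.exp (-(MR Q S x * (II u - ε))) := by
  obtain ⟨δ, hδ⟩ : ∃ δ, δ = min 1 (ε / 3) := ⟨_, rfl⟩
  have hδ0 : 0 < δ := by rw [hδ]; exact lt_min one_pos (by positivity)
  have hδ1 : δ ≤ 1 := by rw [hδ]; exact min_le_left _ _
  have hδ2 : 3 * δ ≤ ε := by
    have h1 : δ ≤ ε / 3 := by rw [hδ]; exact min_le_right _ _
    linarith
  filter_upwards [meanR_facts hQ hK hδ0] with x hx S hS h0S hs
  obtain ⟨hM, _, h2, h3, h4⟩ := hx.2 S hS h0S hs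
  obtain ⟨M, hMd⟩ : ∃ M, M = MR Q S x := ⟨_, rfl⟩
  rw [← hMd] at hM h2 h3 ⊢
  obtain ⟨v, hv⟩ : ∃ v, v = ⌊u * M⌋₊ := ⟨_, rfl⟩
  have hv1 : (v : ℝ) ≤ u * M := by rw [hv]; exact Nat.floor_le (by positivity)
  have h6 := lower hA (Ico x (2 * x)) (tq S) (m := (1 - δ) * M) (D := δ * M) (δ := δ) h2 h4 hδ1 h3 hu0 hu v
  have h7 : {ω | NR A S x ω ≤ u * M} ⊆ {ω | nm A (Ico x (2 * x)) (tq S) ω ≤ v} := by
    intro ω hω
    have h9 : nm A (Ico x (2 * x)) (tq S) ω ≤ u * M := hω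
    show nm A (Ico x (2 * x)) (tq S) ω ≤ v
    rw [nm_card] at h9 ⊢
    have h10 : (oc A (Ico x (2 * x)) (tq S) ω).card ≤ v := by
      rw [hv]
      exact Nat.le_floor h9
    exact_mod_cast h10
  refine (measureReal_mono h7 (measure_ne_top _ _)).trans (h6.trans ?_)
  have hlu : Real.log u ≤ 0 := Real.log_nonpos hu0.le hu
  have h8 : (u ^ v)⁻¹ ≤ Real.exp (-(u * M * Real.log u)) := by
    have h9 : Real.exp (u * M * Real.log u) ≤ u ^ v := by
      rw [← Real.rpow_natCast u v, Real.rpow_def_of_pos hu0]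
      refine Real.exp_le_exp.2 ?_
      rw [mul_comm (Real.log u)]
      exact mul_le_mul_of_nonpos_right hv1 hlu
    rw [Real.exp_neg]
    exact inv_anti₀ (Real.exp_pos _) h9
  rw [div_eq_mul_inv]
  refine (mul_le_mul_of_nonneg_left h8 (Real.exp_pos _).le).trans ?_
  rw [← Real.exp_add]
  refine Real.exp_le_exp.2 ?_
  unfold II
  have h9 : (1 - u) * ((1 - δ) * ((1 - δ) * M)) ≥ (1 - u) * M - 2 * δ * M := by
    have h10 : (1 - δ) * ((1 - δ) * M) ≥ M - 2 * δ * M := by nlinarith [mul_nonneg hM.le (sq_nonneg δ)]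
    have h11 : 0 ≤ δ * M := by positivity
    have h12 := mul_le_mul_of_nonneg_left h10 (show 0 ≤ 1 - u by linarith)
    nlinarith
  have h10 := mul_le_mul_of_nonneg_right hδ2 hM.le
  linarith

/-- `x^(1/(k+1))` -/
noncomputable def YR (k x : ℕ) : ℝ := (x : ℝ) ^ (1 / ((k : ℝ) + 1))

theorem YR_nonneg (k x : ℕ) : 0 ≤ YR k x := by
  unfold YR
  exact Real.rpow_nonneg (Nat.cast_nonneg _) _

theorem YR_pow (k x : ℕ) : YR k x ^ (k + 1) = (x : ℝ) := by
  unfold YR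
  rw [← Real.rpow_natCast, ← Real.rpow_mul (Nat.cast_nonneg _)]
  have h1 : 1 / ((k : ℝ) + 1) * ((k + 1 : ℕ) : ℝ) = 1 := by
    push_cast
    field_simp
  rw [h1, Real.rpow_one]

theorem YY_le_YR (k x : ℕ) (hx : 1 ≤ Real.log x) : YY k x ≤ YR k x := by
  have h1 : YY k x ^ (k + 1) ≤ YR k x ^ (k + 1) := by
    rw [YY_pow, YR_pow]
    exact div_le_self (Nat.cast_nonneg _) hx
  exact le_of_pow_le_pow_left₀ (by omega) (YR_nonneg k x) h1

/-- `B log x ≤ Y` -/
theorem YR_log (k : ℕ) (B : ℝ) : ∀ᶠ x : ℕ in atTop, B * Real.log x ≤ YR k x := by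
  filter_upwards [YY_log k B, log_tendsto.eventually_ge_atTop 1] with x h1 h2
  exact h1.trans (YY_le_YR k x h2)

theorem YR_tendsto (k : ℕ) : Tendsto (fun x => YR k x) atTop atTop := by
  refine tendsto_atTop_mono' _ (YR_log k 1) ?_
  simpa using log_tendsto

/-- The predicted number for coefficients of size at most `exp (c Y)`. -/
theorem MR_ge {Q k : ℕ} {c ε : ℝ} (hc : 0 < c) (hε : 0 < ε) : ∀ᶠ x : ℕ in atTop,
    ∀ H : Finset ℕ, H.card = k → 0 ∉ H → (∀ h ∈ H, (h : ℝ) ≤ Real.exp (c * YR k x)) → ∀ s, 0 ≤ s →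
    s ≤ sgR Q H → s * YR k x / ((1 + ε) * c) ^ k ≤ MR Q H x := by
  filter_upwards [YR_log k (1 / (ε * c)), log_tendsto.eventually_ge_atTop 1] with x h1 h3 H hH h0 hb s hs0 hs
  have hx1 : 1 ≤ x := by
    rcases Nat.eq_zero_or_pos x with h0 | h0
    · rw [h0] at h3
      norm_num at h3
    · exact h0
  have hx0 : (0 : ℝ) < x := by exact_mod_cast hx1
  obtain ⟨Y, hY⟩ : ∃ Y, Y = YR k x := ⟨_, rfl⟩
  rw [← hY] at h1 hb ⊢
  have hl : 0 < Real.log x := by linarith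
  have hY0 : 0 < Y := by
    have : 0 < 1 / (ε * c) * Real.log x := by positivity
    linarith
  have hlx : Real.log x ≤ ε * c * Y := by
    have h4 := mul_le_mul_of_nonneg_left h1 (show 0 ≤ ε * c by positivity)
    have h5 : ε * c * (1 / (ε * c) * Real.log x) = Real.log x := by field_simp
    linarith
  have hr1 : ∀ r ∈ H, 1 ≤ r := by
    intro r hr
    rcases Nat.eq_zero_or_pos r with h | h
    · rw [h] at hr
      exact absurd hr h0
    · exact h
  have hL : LR H x ≤ ((1 + ε) * c * Y) ^ k := by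
    unfold LR
    rw [← hH, ← prod_const]
    refine prod_le_prod (fun h hh => ?_) (fun h hh => ?_)
    · exact hl.le.trans (log_mul_ge hx1 (hr1 h hh))
    · have hh0 : (0 : ℝ) < h := by exact_mod_cast hr1 h hh
      rw [Real.log_mul hx0.ne' hh0.ne']
      have h5 := Real.log_le_log hh0 (hb h hh)
      rw [Real.log_exp] at h5
      linarith
  have hLp := LR_pos h0 h3
  have hpw : Y ^ (k + 1) = (x : ℝ) := by rw [hY]; exact YR_pow k x
  unfold MR
  calc s * Y / ((1 + ε) * c) ^ k = s * x / ((1 + ε) * c * Y) ^ k := by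
        rw [← hpw, mul_pow ((1 + ε) * c) Y k, pow_succ, mul_comm (Y ^ k) Y, ← mul_assoc, mul_div_mul_right _ _ (by positivity)]
    _ ≤ s * x / LR H x := div_le_div_of_nonneg_left (by positivity) hLp hL
    _ ≤ sgR Q H * x / LR H x :=
        div_le_div_of_nonneg_right (mul_le_mul_of_nonneg_right hs hx0.le) hLp.le

/-- `C exp (-δ Y) ≤ x^(-2)` -/
theorem evR_small (k : ℕ) {C δ : ℝ} (hC : 0 < C) (hδ : 0 < δ) :
    ∀ᶠ x : ℕ in atTop, C * Real.exp (-(δ * YR k x)) ≤ 1 / (x : ℝ) ^ 2 := by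
  filter_upwards [ev_small k hC hδ, log_tendsto.eventually_ge_atTop 1] with x h1 h2
  refine le_trans (mul_le_mul_of_nonneg_left (Real.exp_le_exp.2 ?_) hC.le) h1
  have := mul_le_mul_of_nonneg_left (YY_le_YR k x h2) hδ.le
  linarith

/-- **No exceptional events below the critical size.** -/
theorem unionR_bc {Q k : ℕ} {c s κ C : ℝ} (hc : 0 < c) (hκ : 0 < κ) (hC : 0 < C) (hs : 0 < s)
    (hcr : k * c ^ (k + 1) < s * κ) {E : Finset ℕ → ℕ → Set Ω}
    (hE : ∀ᶠ x : ℕ in atTop, ∀ S : Finset ℕ, S.card = k → 0 ∉ S → 0 < sgR Q S →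
      μ.real (E S x) ≤ C * Real.exp (-(MR Q S x * κ))) :
    ∀ᵐ ω ∂μ, ∀ᶠ x : ℕ in atTop, ∀ H : Finset ℕ, H.card = k → 0 ∉ H → (∀ h ∈ H, (h : ℝ) ≤ Real.exp (c * YR k x)) →
      s ≤ sgR Q H → ω ∉ E H x := by
  -- the room
  obtain ⟨ε, hε0, hε⟩ : ∃ ε, 0 < ε ∧ (k : ℝ) * c < s * κ / ((1 + ε) * c) ^ k := by
    have h1 : Tendsto (fun ε : ℝ => s * κ / ((1 + ε) * c) ^ k) (𝓝 0) (𝓝 (s * κ / ((1 + 0) * c) ^ k)) := by
      refine ContinuousAt.tendsto ?_
      refine ContinuousAt.div (by fun_prop) (by fun_prop) ?_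
      positivity
    have h2 : (k : ℝ) * c < s * κ / ((1 + 0) * c) ^ k := by
      rw [lt_div_iff₀ (by positivity), add_zero, one_mul]
      calc (k : ℝ) * c * c ^ k = k * c ^ (k + 1) := by ring
        _ < s * κ := hcr
    obtain ⟨r, hr, h5⟩ := Metric.eventually_nhds_iff.1 (h1.eventually_const_lt h2)
    refine ⟨r / 2, by positivity, h5 ?_⟩
    rw [dist_zero_right, Real.norm_of_nonneg (by positivity)]
    linarith
  obtain ⟨δ, hδ⟩ : ∃ δ, δ = s * κ / ((1 + ε) * c) ^ k - k * c := ⟨_, rfl⟩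
  have hδ0 : 0 < δ := by rw [hδ]; linarith
  classical
  obtain ⟨D, hD⟩ : ∃ D : ℕ → ℕ, D = fun x => ⌊Real.exp (c * YR k x)⌋₊ := ⟨_, rfl⟩
  obtain ⟨P, hP⟩ : ∃ P : ℕ → Finset (Finset ℕ), P = fun x => ((Icc 1 (D x)).powersetCard k).filter
    (fun H => s ≤ sgR Q H) := ⟨_, rfl⟩
  have hbound : ∀ᶠ x : ℕ in atTop, μ.real (⋃ H ∈ P x, E H x) ≤ 1 / (x : ℝ) ^ 2 := by
    filter_upwards [hE, MR_ge (Q := Q) (k := k) hc hε0, evR_small k hC hδ0] with x h1 h2 h3
    refine (measureReal_biUnion_finset_le _ _).trans (le_trans ?_ h3)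
    have hDx : (D x : ℝ) ≤ Real.exp (c * YR k x) := by
      rw [hD]
      exact Nat.floor_le (Real.exp_pos _).le
    have h4 : ∀ H ∈ P x, μ.real (E H x) ≤ C * Real.exp (-(s * YR k x / ((1 + ε) * c) ^ k * κ)) := by
      intro H hH
      rw [hP, mem_filter, mem_powersetCard] at hH
      obtain ⟨⟨hH1, hH2⟩, hH3⟩ := hH
      have h0 : 0 ∉ H := by
        intro h
        have := mem_Icc.1 (hH1 h)
        omega
      have h5 := h1 H hH2 h0 (lt_of_lt_of_le hs hH3)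
      have h6 := h2 H hH2 h0 (fun h hh => by
        have h7 := (mem_Icc.1 (hH1 hh)).2
        have h8 : (h : ℝ) ≤ D x := by exact_mod_cast h7
        exact h8.trans hDx) s hs.le hH3
      refine h5.trans (mul_le_mul_of_nonneg_left (Real.exp_le_exp.2 ?_) hC.le)
      have := mul_le_mul_of_nonneg_right h6 hκ.le
      linarith
    refine (sum_le_sum h4).trans ?_
    rw [sum_const, nsmul_eq_mul]
    have h5 : ((P x).card : ℝ) ≤ Real.exp (k * (c * YR k x)) := by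
      have h6 : (P x).card ≤ (D x) ^ k := by
        rw [hP]
        refine (card_filter_le _ _).trans ?_
        rw [card_powersetCard, Nat.card_Icc]
        exact Nat.choose_le_pow _ _
      have h7 : ((P x).card : ℝ) ≤ (D x : ℝ) ^ k := by exact_mod_cast h6
      refine h7.trans ?_
      rw [Real.exp_nat_mul]
      exact pow_le_pow_left₀ (Nat.cast_nonneg _) hDx k
    refine (mul_le_mul_of_nonneg_right h5 (by positivity)).trans (le_of_eq ?_)
    rw [mul_left_comm, ← Real.exp_add]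
    congr 2
    rw [hδ]
    ring
  filter_upwards [bc summable_sq hbound] with ω hω
  filter_upwards [hω] with x hx H hH h0 hb hs' hcon
  refine hx (Set.mem_biUnion (x := H) ?_ hcon)
  show H ∈ P x
  rw [hP, mem_filter, mem_powersetCard]
  refine ⟨⟨fun h hh => ?_, hH⟩, hs'⟩
  rw [mem_Icc]
  constructor
  · rcases Nat.eq_zero_or_pos h with h1 | h1
    · rw [h1] at hh
      exact absurd hh h0
    · exact h1
  · rw [hD]
    exact Nat.le_floor (hb h hh)

/-- **Upper deviations.** -/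
theorem noR_up {Q k : ℕ} (hA : IsModel μ (level Q) A) (hQ : 1 ≤ Q) (hk : 1 ≤ k) {c s u : ℝ} (hc : 0 < c) (hs : 0 < s)
    (hu : 1 < u) (hcr : k * c ^ (k + 1) < s * II u) :
    ∀ᵐ ω ∂μ, ∀ᶠ x : ℕ in atTop, ∀ H : Finset ℕ, H.card = k → 0 ∉ H → (∀ h ∈ H, (h : ℝ) ≤ Real.exp (c * YR k x)) →
      s ≤ sgR Q H → NR A H x ω < u * MR Q H x := by
  have hI := II_pos (by linarith : (0 : ℝ) ≤ u) (by linarith : u ≠ 1)
  obtain ⟨κ, hκ1, hκ2, hκ3⟩ : ∃ κ, 0 < κ ∧ κ < II u ∧ k * c ^ (k + 1) < s * κ := by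
    have h1 : k * c ^ (k + 1) / s < II u := by
      rw [div_lt_iff₀ hs]
      linarith
    obtain ⟨κ, h2, h3⟩ := exists_between (max_lt h1 hI)
    refine ⟨κ, (le_max_right _ _).trans_lt h2, h3, ?_⟩
    have h4 := (le_max_left _ _).trans_lt h2
    rw [div_lt_iff₀ hs] at h4
    linarith
  have h1 := tailR_up (K := k) hA hQ hk hu.le (show 0 < II u - κ by linarith)
  have h2 := unionR_bc (μ := μ) (Q := Q) (k := k) hc hκ1 (show 0 < u + 1 by linarith) hs hκ3
    (E := fun S x => {ω | u * MR Q S x ≤ NR A S x ω}) (by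
      filter_upwards [h1] with x hx S hS h0S hs'
      refine (hx S hS h0S hs').trans (le_of_eq ?_)
      rw [sub_sub_cancel])
  filter_upwards [h2] with ω hω
  filter_upwards [hω] with x hx H hH h0 hb hs'
  exact not_le.1 (hx H hH h0 hb hs')

/-- **Lower deviations.** -/
theorem noR_dn {Q k : ℕ} (hA : IsModel μ (level Q) A) (hQ : 1 ≤ Q) (hk : 1 ≤ k) {c s u : ℝ} (hc : 0 < c) (hs : 0 < s)
    (hu0 : 0 < u) (hu : u < 1) (hcr : k * c ^ (k + 1) < s * II u) :
    ∀ᵐ ω ∂μ, ∀ᶠ x : ℕ in atTop, ∀ H : Finset ℕ, H.card = k → 0 ∉ H → (∀ h ∈ H, (h : ℝ) ≤ Real.exp (c * YR k x)) →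
      s ≤ sgR Q H → u * MR Q H x < NR A H x ω := by
  have hI := II_pos hu0.le hu.ne
  obtain ⟨κ, hκ1, hκ2, hκ3⟩ : ∃ κ, 0 < κ ∧ κ < II u ∧ k * c ^ (k + 1) < s * κ := by
    have h1 : k * c ^ (k + 1) / s < II u := by
      rw [div_lt_iff₀ hs]
      linarith
    obtain ⟨κ, h2, h3⟩ := exists_between (max_lt h1 hI)
    refine ⟨κ, (le_max_right _ _).trans_lt h2, h3, ?_⟩
    have h4 := (le_max_left _ _).trans_lt h2
    rw [div_lt_iff₀ hs] at h4
    linarith
  have h1 := tailR_dn (K := k) hA hQ hk hu0 hu.le (show 0 < II u - κ by linarith)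
  have h2 := unionR_bc (μ := μ) (Q := Q) (k := k) hc hκ1 one_pos hs hκ3
    (E := fun S x => {ω | NR A S x ω ≤ u * MR Q S x}) (by
      filter_upwards [h1] with x hx S hS h0S hs'
      refine (hx S hS h0S hs').trans (le_of_eq ?_)
      rw [sub_sub_cancel, one_mul])
  filter_upwards [h2] with ω hω
  filter_upwards [hω] with x hx H hH h0 hb hs'
  exact not_le.1 (hx H hH h0 hb hs')

end Pool.Agent.Q106.QR
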