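import Pool.Agent.Q106.UR.Win
import Pool.Agent.Q106.QR.Tail

/-!
# Independent families of configurations
-/

set_option autoImplicit false

namespace Pool.Agent.Q106.QR

open Finset MeasureTheory ProbabilityTheory Filter Pool.Agent.Q120.GM Pool.Agent.Q106.UR

variable {Ω : Type*} [MeasurableSpace Ω] {μ : Measure Ω} [IsProbabilityMeasure μ] {A : Ω → Set ℕ}

/-- The points of the configuration `j` at `n`. -/
def Uv {k : ℕ} (v : Fin k → ℕ → ℕ → ℕ) (j : Fin k → ℕ) (n : ℕ) : Finset ℕ :=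
  univ.image (fun i : Fin k => v i (j i) n)

/-- The points are different for different indices. -/
def InjV {k : ℕ} (v : Fin k → ℕ → ℕ → ℕ) (t : Finset ℕ) (W : ℕ) : Prop :=
  ∀ n ∈ t, ∀ n' ∈ t, ∀ i i' : Fin k, ∀ j j' : ℕ, j < W → j' < W → v i j n = v i' j' n' → i = i' ∧ j = j' ∧ n = n'

variable {k W : ℕ} {v : Fin k → ℕ → ℕ → ℕ} {t : Finset ℕ}

theorem mem_Uv {j : Fin k → ℕ} {n b : ℕ} : b ∈ Uv v j n ↔ ∃ i, b = v i (j i) n := by
  unfold Uv
  rw [mem_image]
  constructor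
  · rintro ⟨i, _, h⟩
    exact ⟨i, h.symm⟩
  · rintro ⟨i, h⟩
    exact ⟨i, mem_univ i, h.symm⟩

theorem Uv_card (hv : InjV v t W) {n : ℕ} (hn : n ∈ t) {j : Fin k → ℕ} (hj : j ∈ GG k W) : (Uv v j n).card = k := by
  unfold Uv
  rw [card_image_of_injective]
  · simp
  · intro i i' h
    exact (hv n hn n hn i i' (j i) (j i') (mem_GG.1 hj i) (mem_GG.1 hj i') h).1

theorem Uv_disj (hv : InjV v t W) {n n' : ℕ} (hn : n ∈ t) (hn' : n' ∈ t)
    {j j' : Fin k → ℕ} (hj : j ∈ GG k W) (hj' : j' ∈ GG k W) (h : n ≠ n' ∨ ∀ i, j i ≠ j' i) :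
    Disjoint (Uv v j n) (Uv v j' n') := by
  rw [Finset.disjoint_left]
  intro b hb hb'
  rw [mem_Uv] at hb hb'
  obtain ⟨i, e⟩ := hb
  obtain ⟨i', e'⟩ := hb'
  obtain ⟨h1, h2, h3⟩ := hv n hn n' hn' i i' (j i) (j' i') (mem_GG.1 hj i) (mem_GG.1 hj' i') (e.symm.trans e')
  subst h1
  rcases h with h | h
  · exact h h3
  · exact h i h2

/-- **The windows.** -/
theorem winV {p : ℕ → ℝ} (hA : IsModel μ p A) (hv : InjV v t W) (hW : 1 ≤ W) {q q' z g : ℝ} (hq : 0 < q) (hq1 : q' < 1)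
    (hp : ∀ n ∈ t, ∀ i : Fin k, ∀ j < W, q ≤ p (v i j n) ∧ p (v i j n) ≤ q')
    (hk : 1 ≤ k) {m : ℕ} (hz : 0 ≤ z) (hzm : 0 < z ^ (2 * m)) (hm : m ≤ t.card)
    (hg1 : 2 * (z - 1) * q ^ k + (z - 1) ^ 2 * q' ^ (k + 1) ≤ g)
    (hg2 : 2 * (z - 1) * q' ^ k + (z - 1) ^ 2 * q' ^ (k + 1) ≤ g) (hqq : 0 ≤ q') {lo b : ℝ}
    (hlo : lo = (t.card.choose m : ℝ) * (q ^ k) ^ m * (1 - q' ^ k) ^ t.card)
    (hb : b = Real.exp (t.card * g) / z ^ (2 * m)) :
    μ.real {ω | ∀ j ∈ GG k W, nm A t (Uv v j) ω ≠ m} ≤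
      1 / ((W : ℝ) ^ k * lo) + k * (W : ℝ) ^ (2 * k - 1) * b / ((W : ℝ) ^ k * lo) ^ 2 := by
  have hW0 : (0 : ℝ) < W := by exact_mod_cast hW
  have hq'k : q' ^ k < 1 := pow_lt_one₀ hqq hq1 (by omega)
  have hlo0 : 0 < lo := by
    rw [hlo]
    have h1 : 0 < t.card.choose m := Nat.choose_pos hm
    have h2 : (0 : ℝ) < t.card.choose m := by exact_mod_cast h1
    have h3 : 0 < 1 - q' ^ k := by linarith
    positivity
  have hpU : ∀ n ∈ t, ∀ j ∈ GG k W, q ^ k ≤ pT p (Uv v j n) ∧ pT p (Uv v j n) ≤ q' ^ k := by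
    intro n hn j hj
    have hc := Uv_card hv hn hj
    have hb : ∀ b ∈ Uv v j n, q ≤ p b ∧ p b ≤ q' := by
      intro b hb
      rw [mem_Uv] at hb
      obtain ⟨i, rfl⟩ := hb
      exact hp n hn i (j i) (mem_GG.1 hj i)
    unfold pT
    have e1 : ∏ _b ∈ Uv v j n, q = q ^ k := by rw [prod_const, hc]
    have e2 : ∏ _b ∈ Uv v j n, q' = q' ^ k := by rw [prod_const, hc]
    rw [← e1, ← e2]
    exact ⟨prod_le_prod (fun _ _ => hq.le) (fun b hb' => (hb b hb').1),
      prod_le_prod (fun b _ => p_nonneg hA b) (fun b hb' => (hb b hb').2)⟩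
  have hUnion : ∀ n ∈ t, ∀ i ∈ GG k W, ∀ j ∈ GG k W, i ≠ j →
      pT p (Uv v i n ∪ Uv v j n) ≤ q' ^ (k + 1) := by
    intro n hn i hi j hj hij
    have hci := Uv_card hv hn hi
    have hex : ∃ l, i l ≠ j l := by
      by_contra hcon
      push Not at hcon
      exact hij (funext hcon)
    obtain ⟨l, hl⟩ := hex
    have hnot : v l (j l) n ∉ Uv v i n := by
      intro h
      rw [mem_Uv] at h
      obtain ⟨l', e⟩ := h
      obtain ⟨h1, h2, _⟩ := hv n hn n hn l l' (j l) (i l') (mem_GG.1 hj l) (mem_GG.1 hi l') e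
      subst h1
      exact hl h2.symm
    have hsub : insert (v l (j l) n) (Uv v i n) ⊆ Uv v i n ∪ Uv v j n := by
      intro b hb
      rw [mem_insert] at hb
      rcases hb with rfl | hb
      · exact mem_union_right _ (mem_Uv.2 ⟨l, rfl⟩)
      · exact mem_union_left _ hb
    have h1 : pT p (Uv v i n ∪ Uv v j n) ≤ pT p (insert (v l (j l) n) (Uv v i n)) := by
      unfold pT
      rw [← prod_sdiff hsub]
      have h1 : ∏ i ∈ (Uv v i n ∪ Uv v j n) \ insert (v l (j l) n) (Uv v i n), p i ≤ 1 :=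
        prod_le_one (fun i _ => p_nonneg hA i) (fun i _ => p_le_one hA i)
      have h2 : 0 ≤ ∏ i ∈ insert (v l (j l) n) (Uv v i n), p i := prod_nonneg (fun i _ => p_nonneg hA i)
      nlinarith
    refine h1.trans ?_
    unfold pT
    rw [prod_insert hnot, pow_succ, mul_comm]
    exact mul_le_mul (hpU n hn i hi).2 (hp n hn l (j l) (mem_GG.1 hj l)).2 (p_nonneg hA _) (by positivity)
  have hGne : (GG k W).Nonempty := ⟨fun _ => 0, mem_GG.2 (fun _ => by omega)⟩
  have hcardG : ((GG k W).card : ℝ) = (W : ℝ) ^ k := by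
    rw [card_GG]
    push_cast
    ring
  have hb0 : 0 ≤ b := by rw [hb]; positivity
  have h := second (μ := μ) (GG k W) (fun j => {ω | nm A t (Uv v j) ω = m})
    (fun j _ => (meas_nm hA t _) (measurableSet_singleton _)) (shp k W) ?_ (a := lo) (b := b) hlo0 ?_ hGne ?_ hb0
    (n := k * (W : ℝ) ^ (2 * k - 1)) card_shp
  · rw [hcardG] at h
    exact h
  · -- independence
    intro i hi j hj _ hsh
    have hne : ∀ l, i l ≠ j l := by
      intro l hl
      apply hsh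
      unfold shp
      rw [mem_filter, mem_product]
      exact ⟨⟨hi, hj⟩, l, hl⟩
    have hmeas : ∀ j : Fin k → ℕ, MeasurableSet[F A ((t.biUnion (Uv v j) : Finset ℕ) : Set ℕ)]
        {ω | nm A t (Uv v j) ω = m} := by
      intro j
      have h1 : Measurable[F A ((t.biUnion (Uv v j) : Finset ℕ) : Set ℕ)] (nm A t (Uv v j)) := by
        let _ : MeasurableSpace Ω := F A ((t.biUnion (Uv v j) : Finset ℕ) : Set ℕ)
        unfold nm
        exact Finset.measurable_fun_sum t (fun n hn => F_ind (fun b hb => mem_coe.2 (mem_biUnion.2 ⟨n, hn, hb⟩)))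
      exact h1 (measurableSet_singleton _)
    refine indep_real hA (S := ((t.biUnion (Uv v i) : Finset ℕ) : Set ℕ))
      (T := ((t.biUnion (Uv v j) : Finset ℕ) : Set ℕ)) ?_ (hmeas i) (hmeas j)
    rw [Finset.disjoint_coe, disjoint_biUnion_left]
    intro n hn
    rw [disjoint_biUnion_right]
    intro n' hn'
    exact Uv_disj hv hn hn' hi hj (Or.inr hne)
  · intro j hj
    rw [hlo]
    exact exact_low hA t (Uv v j) (fun n hn n' hn' hne => Uv_disj hv hn hn' hj hj (Or.inl hne)) (by positivity) hq'k.le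
      (fun n hn => (hpU n hn j hj).1) (fun n hn => (hpU n hn j hj).2) (by positivity) m
  · intro i hi j hj hij _
    have h1 := pair_up hA t (Uv v i) (Uv v j) (fun n hn n' hn' hne => by
      rw [disjoint_union_left, disjoint_union_right, disjoint_union_right]
      exact ⟨⟨Uv_disj hv hn hn' hi hi (Or.inl hne), Uv_disj hv hn hn' hi hj (Or.inl hne)⟩,
        ⟨Uv_disj hv hn hn' hj hi (Or.inl hne), Uv_disj hv hn hn' hj hj (Or.inl hne)⟩⟩) (z := z) (g := g) hz
      (fun n hn => by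
        obtain ⟨h1, h2⟩ := hpU n hn i hi
        obtain ⟨h3, h4⟩ := hpU n hn j hj
        have h5 := hUnion n hn i hi j hj hij
        have h6 := mul_le_mul_of_nonneg_left h5 (sq_nonneg (z - 1))
        rcases le_total 1 z with hz1 | hz1
        · have h7 : (z - 1) * (pT p (Uv v i n) + pT p (Uv v j n)) ≤ (z - 1) * (2 * q' ^ k) :=
            mul_le_mul_of_nonneg_left (by linarith) (by linarith)
          linarith
        · have h7 : (z - 1) * (pT p (Uv v i n) + pT p (Uv v j n)) ≤ (z - 1) * (2 * q ^ k) :=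
            mul_le_mul_of_nonpos_left (by linarith) (by linarith)
          linarith) m
    rw [hb, le_div_iff₀ hzm, mul_comm]
    exact h1

/-- The coefficients. -/
def shR {k : ℕ} (Q x W : ℕ) (a : Fin k → ℕ) (i : Fin k) (j : ℕ) : ℕ := a i + Q * (4 * x * W * 4 ^ i.1 + j)

/-- The values. -/
def vR {k : ℕ} (Q x W : ℕ) (a : Fin k → ℕ) (i : Fin k) (j n : ℕ) : ℕ := n * shR Q x W a i j + 1

theorem shR_lt {Q x : ℕ} {a : Fin k → ℕ} (ha : ∀ i, a i < Q) {i : Fin k} {j : ℕ} (hj : j < W) :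
    shR Q x W a i j < Q * (4 * x * W * 4 ^ i.1 + W) := by
  unfold shR
  have h1 := ha i
  have h2 : Q * (4 * x * W * 4 ^ i.1 + j) + Q ≤ Q * (4 * x * W * 4 ^ i.1 + W) := by
    rw [← Nat.mul_succ]
    exact Nat.mul_le_mul_left _ (by omega)
  omega

theorem shR_ge {Q x : ℕ} {a : Fin k → ℕ} (i : Fin k) (j : ℕ) : Q * (4 * x * W * 4 ^ i.1) ≤ shR Q x W a i j := by
  unfold shR
  calc Q * (4 * x * W * 4 ^ i.1) ≤ Q * (4 * x * W * 4 ^ i.1 + j) := Nat.mul_le_mul_left _ (Nat.le_add_right _ _)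
    _ ≤ _ := Nat.le_add_left _ _

theorem vR_inj {Q x : ℕ} {a : Fin k → ℕ} (hx : 1 ≤ x) (ha : ∀ i, a i < Q) {n n' : ℕ} (hn : x ≤ n)
    (hnx : n < 2 * x) (hn' : x ≤ n') (hnx' : n' < 2 * x) {i i' : Fin k} {j j' : ℕ} (hj : j < W) (hj' : j' < W)
    (h : vR Q x W a i j n = vR Q x W a i' j' n') : i = i' ∧ j = j' ∧ n = n' := by
  have hQ : 1 ≤ Q := by
    have := ha i
    omega
  unfold vR at h
  have h' : n * shR Q x W a i j = n' * shR Q x W a i' j' := by omega
  clear h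
  -- different windows
  have key : ∀ (n n' : ℕ) (i i' : Fin k) (j j' : ℕ), n < 2 * x → x ≤ n' → j < W → i.1 < i'.1 →
      n * shR Q x W a i j < n' * shR Q x W a i' j' := by
    intro n n' i i' j j' hnx hn' hj hii
    have h1 := shR_lt (x := x) ha (i := i) hj
    have h2 := shR_ge (Q := Q) (x := x) (W := W) (a := a) i' j'
    have h3 : 4 ^ (i.1 + 1) ≤ 4 ^ i'.1 := Nat.pow_le_pow_right (by norm_num) hii
    have h4 : W ≤ 4 * x * W * 4 ^ i.1 := by
      have h5 : 1 ≤ 4 * x * 4 ^ i.1 := Nat.mul_pos (by omega) (by positivity)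
      calc W = 1 * W := (one_mul _).symm
        _ ≤ (4 * x * 4 ^ i.1) * W := Nat.mul_le_mul_right _ h5
        _ = 4 * x * W * 4 ^ i.1 := by ring
    have h6 : Q * (4 * x * W * 4 ^ i.1 + W) ≤ 2 * (Q * (4 * x * W * 4 ^ i.1)) := by
      calc Q * (4 * x * W * 4 ^ i.1 + W) ≤ Q * (4 * x * W * 4 ^ i.1 + 4 * x * W * 4 ^ i.1) :=
            Nat.mul_le_mul_left _ (by omega)
        _ = _ := by ring
    calc n * shR Q x W a i j ≤ (2 * x) * shR Q x W a i j := Nat.mul_le_mul_right _ hnx.le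
      _ < (2 * x) * (2 * (Q * (4 * x * W * 4 ^ i.1))) := Nat.mul_lt_mul_of_pos_left (h1.trans_le h6) (by omega)
      _ = x * (Q * (4 * x * W * 4 ^ (i.1 + 1))) := by ring
      _ ≤ x * (Q * (4 * x * W * 4 ^ i'.1)) := Nat.mul_le_mul_left _ (Nat.mul_le_mul_left _ (Nat.mul_le_mul_left _ h3))
      _ ≤ n' * shR Q x W a i' j' := Nat.mul_le_mul hn' h2
  have hii : i = i' := by
    rcases lt_trichotomy i.1 i'.1 with hlt | heq | hgt
    · have := key n n' i i' j j' hnx hn' hj hlt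
      omega
    · exact Fin.ext heq
    · have := key n' n i' i j' j hnx' hn hj' hgt
      omega
  subst hii
  -- the same window
  have key2 : ∀ (n n' j j' : ℕ), n < 2 * x → j < W → j' < W → n < n' →
      n * shR Q x W a i j < n' * shR Q x W a i j' := by
    intro n n' j j' hnx hj hj' hnn
    have h2 := shR_ge (Q := Q) (x := x) (W := W) (a := a) i j'
    have h3 : shR Q x W a i j ≤ shR Q x W a i j' + Q * W := by
      unfold shR
      have h4 : Q * (4 * x * W * 4 ^ i.1 + j) ≤ Q * (4 * x * W * 4 ^ i.1 + j') + Q * W := by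
        rw [← Nat.mul_add]
        exact Nat.mul_le_mul_left _ (by omega)
      omega
    have h5 : 4 * x * W ≤ 4 * x * W * 4 ^ i.1 := Nat.le_mul_of_pos_right _ (by positivity)
    have h6 : 2 * x * (Q * W) < Q * (4 * x * W * 4 ^ i.1) := by
      have h7 : 0 < Q * (x * W) := Nat.mul_pos hQ (Nat.mul_pos hx (by omega))
      calc 2 * x * (Q * W) = 2 * (Q * (x * W)) := by ring
        _ < 4 * (Q * (x * W)) := by omega
        _ = Q * (4 * x * W) := by ring
        _ ≤ _ := Nat.mul_le_mul_left _ h5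
    calc n * shR Q x W a i j ≤ n * (shR Q x W a i j' + Q * W) := Nat.mul_le_mul_left _ h3
      _ = n * shR Q x W a i j' + n * (Q * W) := Nat.mul_add _ _ _
      _ ≤ n * shR Q x W a i j' + 2 * x * (Q * W) := Nat.add_le_add_left (Nat.mul_le_mul_right _ hnx.le) _
      _ < n * shR Q x W a i j' + shR Q x W a i j' := Nat.add_lt_add_left (h6.trans_le h2) _
      _ = (n + 1) * shR Q x W a i j' := (Nat.succ_mul _ _).symm
      _ ≤ n' * shR Q x W a i j' := Nat.mul_le_mul_right _ hnn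
  have hnn : n = n' := by
    rcases lt_trichotomy n n' with hlt | heq | hgt
    · have := key2 n n' j j' hnx hj hj' hlt
      omega
    · exact heq
    · have := key2 n' n j' j hnx' hj' hj hgt
      omega
  subst hnn
  refine ⟨rfl, ?_, rfl⟩
  have h1 : shR Q x W a i j = shR Q x W a i j' := Nat.eq_of_mul_eq_mul_left (by omega) h'
  unfold shR at h1
  have h2 : Q * (4 * x * W * 4 ^ i.1 + j) = Q * (4 * x * W * 4 ^ i.1 + j') := by omega
  have h3 := Nat.eq_of_mul_eq_mul_left hQ h2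
  omega

end Pool.Agent.Q106.QR
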